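import Pool.Agent.Q127.SM.Stm

/-!
# Project SM: the Hecke relation for the primitive (S_hkF)
-/

set_option autoImplicit false
set_option linter.all false

open Complex

namespace Pool.Agent.Q162.SM_HKF

open Pool.Agent.Q127.SM
open Pool.Agent.TH133.SH

lemma inner_sum (q : ℕ) (hq : q.Prime) (n : ℕ) :
    ∑ u ∈ Finset.range q, (Complex.exp (2 * (Real.pi : ℂ) * Complex.I / (q : ℂ)) ^ n) ^ u =
      if q ∣ n then (q : ℂ) else 0 := by
  have hz := Complex.isPrimitiveRoot_exp q hq.ne_zero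
  set ζ := Complex.exp (2 * (Real.pi : ℂ) * Complex.I / (q : ℂ)) with hζ
  split_ifs with h
  · have h1 : ζ ^ n = 1 := (hz.pow_eq_one_iff_dvd n).mpr h
    rw [h1]
    simp
  · have h1 : ζ ^ n ≠ 1 := fun h2 => h ((hz.pow_eq_one_iff_dvd n).mp h2)
    rw [geom_sum_eq h1]
    have h2 : (ζ ^ n) ^ q = 1 := by rw [← pow_mul, mul_comm, pow_mul, hz.pow_eq_one, one_pow]
    rw [h2, sub_self, zero_div]

theorem hkF : S_hkF := by
  intro a q hq h0 hs hH τ hτ
  have hq0 : (q : ℂ) ≠ 0 := by exact_mod_cast hq.ne_zero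
  have hqR : (0 : ℝ) < (q : ℝ) := by exact_mod_cast hq.pos
  have hinj : Function.Injective (fun m : ℕ => q * m) := fun x y h =>
    Nat.eq_of_mul_eq_mul_left hq.pos h
  have him : ∀ u : ℕ, 0 < ((τ + (u : ℂ)) / (q : ℂ)).im := by
    intro u
    have e : ((τ + (u : ℂ)) / (q : ℂ)) = (τ + (u : ℂ)) * (((q : ℝ)⁻¹ : ℝ) : ℂ) := by
      push_cast
      rw [div_eq_mul_inv]
    rw [e, Complex.mul_im, Complex.ofReal_re, Complex.ofReal_im, mul_zero, zero_add, Complex.add_im,
      Complex.natCast_im, add_zero]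
    positivity
  have him2 : 0 < ((q : ℂ) * τ).im := by
    rw [Complex.mul_im, Complex.natCast_re, Complex.natCast_im, zero_mul, add_zero]
    positivity
  -- the terms
  set G : ℕ → ℂ := fun n => (a n : ℂ) / (n : ℂ) *
    Complex.exp (2 * (Real.pi : ℂ) * Complex.I * (n : ℂ) * (τ / (q : ℂ))) *
      (if q ∣ n then (q : ℂ) else 0) with hG
  have hterm : ∀ (u n : ℕ), (a n : ℂ) / (n : ℂ) *
      Complex.exp (2 * (Real.pi : ℂ) * Complex.I * (n : ℂ) * ((τ + (u : ℂ)) / (q : ℂ))) =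
      (a n : ℂ) / (n : ℂ) * Complex.exp (2 * (Real.pi : ℂ) * Complex.I * (n : ℂ) * (τ / (q : ℂ))) *
        (Complex.exp (2 * (Real.pi : ℂ) * Complex.I / (q : ℂ)) ^ n) ^ u := by
    intro u n
    rw [mul_assoc ((a n : ℂ) / (n : ℂ)), ← pow_mul, ← Complex.exp_nat_mul, ← Complex.exp_add]
    congr 2
    push_cast
    field_simp
  have hsum1 : ∑ u ∈ Finset.range q, Fser a ((τ + (u : ℂ)) / (q : ℂ)) = ∑' n, G n := by
    unfold Fser
    rw [← Summable.tsum_finsetSum (fun u _ => summable_Fser hs (him u))]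
    refine tsum_congr fun n => ?_
    rw [Finset.sum_congr rfl (fun u _ => hterm u n), ← Finset.mul_sum, inner_sum q hq n]
  have hGs : Summable G := by
    have h1 : Summable fun n => ∑ u ∈ Finset.range q, ((a n : ℂ) / (n : ℂ) *
      Complex.exp (2 * (Real.pi : ℂ) * Complex.I * (n : ℂ) * ((τ + (u : ℂ)) / (q : ℂ)))) :=
      summable_sum (fun u _ => summable_Fser hs (him u))
    refine h1.congr fun n => ?_
    rw [Finset.sum_congr rfl (fun u _ => hterm u n), ← Finset.mul_sum, inner_sum q hq n]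
  have hGq : ∀ m : ℕ, G (q * m) = (a (q * m) : ℂ) / (m : ℂ) *
      Complex.exp (2 * (Real.pi : ℂ) * Complex.I * (m : ℂ) * τ) := by
    intro m
    simp only [hG]
    rw [if_pos (Dvd.intro m rfl)]
    have e : 2 * (Real.pi : ℂ) * Complex.I * ((q * m : ℕ) : ℂ) * (τ / (q : ℂ)) =
        2 * (Real.pi : ℂ) * Complex.I * (m : ℂ) * τ := by
      push_cast
      field_simp
    rw [e]
    rcases Nat.eq_zero_or_pos m with rfl | hm
    · simp
    · have hm0 : (m : ℂ) ≠ 0 := by exact_mod_cast hm.ne'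
      push_cast
      field_simp
  have hsum1' : ∑' n, G n = ∑' m : ℕ, (a (q * m) : ℂ) / (m : ℂ) *
      Complex.exp (2 * (Real.pi : ℂ) * Complex.I * (m : ℂ) * τ) := by
    rw [← hinj.tsum_eq (f := G)]
    · exact tsum_congr hGq
    · intro n hn
      by_contra hcon
      apply hn
      simp only [hG]
      rw [if_neg, mul_zero]
      rintro ⟨m, hm⟩
      exact hcon ⟨m, hm.symm⟩
  have hs1 : Summable fun m : ℕ => (a (q * m) : ℂ) / (m : ℂ) *
      Complex.exp (2 * (Real.pi : ℂ) * Complex.I * (m : ℂ) * τ) := by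
    refine (hGs.comp_injective hinj).congr fun m => ?_
    exact hGq m
  -- the second sum
  set H : ℕ → ℂ := fun m => if q ∣ m then ((q : ℂ) * (a (m / q) : ℂ)) / (m : ℂ) *
      Complex.exp (2 * (Real.pi : ℂ) * Complex.I * (m : ℂ) * τ) else 0 with hHd
  have hHq : ∀ k : ℕ, H (q * k) = (a k : ℂ) / (k : ℂ) *
      Complex.exp (2 * (Real.pi : ℂ) * Complex.I * (k : ℂ) * ((q : ℂ) * τ)) := by
    intro k
    simp only [hHd]
    rw [if_pos (Dvd.intro k rfl), Nat.mul_div_cancel_left k hq.pos]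
    have e : 2 * (Real.pi : ℂ) * Complex.I * ((q * k : ℕ) : ℂ) * τ =
        2 * (Real.pi : ℂ) * Complex.I * (k : ℂ) * ((q : ℂ) * τ) := by
      push_cast
      ring
    rw [e]
    rcases Nat.eq_zero_or_pos k with rfl | hk
    · simp
    · have hk0 : (k : ℂ) ≠ 0 := by exact_mod_cast hk.ne'
      push_cast
      field_simp
  have hH0 : ∀ m, m ∉ Set.range (fun m : ℕ => q * m) → H m = 0 := by
    intro m hm
    simp only [hHd]
    rw [if_neg]
    rintro ⟨k, hk⟩
    exact hm ⟨k, hk.symm⟩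
  have hsum2 : Fser a ((q : ℂ) * τ) = ∑' m, H m := by
    rw [← hinj.tsum_eq (f := H)]
    · exact (tsum_congr hHq).symm
    · intro n hn
      by_contra hcon
      exact hn (hH0 n hcon)
  have hHs : Summable H := by
    rw [← hinj.summable_iff hH0]
    refine (summable_Fser hs him2).congr fun k => ?_
    exact (hHq k).symm
  rw [hsum1, hsum1', hsum2, ← hs1.tsum_add hHs]
  unfold Fser
  rw [← tsum_mul_left]
  refine tsum_congr fun m => ?_
  simp only [hHd]
  have hm := hH m
  have hmc : (a (q * m) : ℂ) + (if q ∣ m then (q : ℂ) * (a (m / q) : ℂ) else 0) =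
      (a q : ℂ) * (a m : ℂ) := by
    have := congrArg (fun z : ℤ => (z : ℂ)) hm
    push_cast at this
    exact this
  rw [← mul_assoc, mul_div_assoc', ← hmc]
  split_ifs with h
  · rw [add_div, add_mul]
  · rw [add_zero, add_zero]

end Pool.Agent.Q162.SM_HKF
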