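import Pool.Agent.Q127.SM.Stm

/-!
# Project SM: a prime factor which is 3 modulo 4 (S_prm)
-/

set_option autoImplicit false
set_option linter.all false

namespace Pool.Agent.Q162.SM_PRM

open Pool.Agent.Q127.SM

lemma exists_factor : ∀ n : ℕ, n % 4 = 3 → ∃ q : ℕ, q.Prime ∧ q ∣ n ∧ q % 4 = 3 := by
  intro n
  induction n using Nat.strong_induction_on with
  | _ n ih =>
    intro hn
    have h1 : n ≠ 1 := by omega
    have hp := Nat.minFac_prime h1
    have hd := Nat.minFac_dvd n
    obtain ⟨m, hm⟩ := hd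
    set p := n.minFac with hpd
    have hp4 : p % 4 = 1 ∨ p % 4 = 3 ∨ p % 2 = 0 := by omega
    rcases hp4 with h | h | h
    · have hm3 : m % 4 = 3 := by
        have h2 : (p * m) % 4 = 3 := by rw [← hm]; exact hn
        rw [Nat.mul_mod, h] at h2
        omega
      have hlt : m < n := by
        have h2 := hp.two_le
        have hm0 : 0 < m := by omega
        rw [hm]
        nlinarith
      obtain ⟨q, hq, hqm, hq3⟩ := ih m hlt hm3
      exact ⟨q, hq, by rw [hm]; exact Dvd.dvd.mul_left hqm p, hq3⟩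
    · exact ⟨p, hp, ⟨m, hm⟩, h⟩
    · exfalso
      have h2 : (p * m) % 2 = 0 := by rw [Nat.mul_mod, h]; simp
      rw [← hm] at h2
      omega

theorem prm : S_prm := by
  intro N hN
  obtain ⟨q, hq, hd, h3⟩ := exists_factor (4 * N - 1) (by omega)
  refine ⟨q, hq, h3, ?_, ?_⟩
  · intro hqN
    have h1 : q ∣ 4 * N := Dvd.dvd.mul_left hqN 4
    have h2 : q ∣ 4 * N - (4 * N - 1) := Nat.dvd_sub h1 hd
    have h4 : 4 * N - (4 * N - 1) = 1 := by omega
    rw [h4] at h2
    exact hq.one_lt.ne' (Nat.dvd_one.mp h2)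
  · exact le_trans (Nat.le_of_dvd (by omega) hd) (by omega)

end Pool.Agent.Q162.SM_PRM
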