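import Mathlib
import Pool.Agent.Q16.SQ.Stm3
import Pool.Agent.Helper549.Tri.Basic
import Pool.Agent.Helper549.Tri.Angles
import Pool.Agent.Helper549.Tri.AngleSum
import Pool.Agent.Helper549.Tri.Setup
set_option autoImplicit false
noncomputable section
open scoped BigOperators
open Pool.Agent.Helper549.Tri

namespace Q16.SQ

/-- a triple of distances that is a permutation of a, b, c can be reordered -/
theorem cut_reorder (a b c : ℝ) (Q : Fin 3 → E2)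
    (h : Sd a b c (dist (Q 1) (Q 2)) (dist (Q 0) (Q 2)) (dist (Q 0) (Q 1))) :
    ∃ σ : Equiv.Perm (Fin 3), dist (Q (σ 1)) (Q (σ 2)) = a ∧ dist (Q (σ 0)) (Q (σ 2)) = b ∧
      dist (Q (σ 0)) (Q (σ 1)) = c := by
  have hsw01_0 : (Equiv.swap (0 : Fin 3) 1) 0 = 1 := by decide
  have hsw01_1 : (Equiv.swap (0 : Fin 3) 1) 1 = 0 := by decide
  have hsw01_2 : (Equiv.swap (0 : Fin 3) 1) 2 = 2 := by decide
  have hsw12_0 : (Equiv.swap (1 : Fin 3) 2) 0 = 0 := by decide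
  have hsw12_1 : (Equiv.swap (1 : Fin 3) 2) 1 = 2 := by decide
  have hsw12_2 : (Equiv.swap (1 : Fin 3) 2) 2 = 1 := by decide
  have hsw02_0 : (Equiv.swap (0 : Fin 3) 2) 0 = 2 := by decide
  have hsw02_1 : (Equiv.swap (0 : Fin 3) 2) 1 = 1 := by decide
  have hsw02_2 : (Equiv.swap (0 : Fin 3) 2) 2 = 0 := by decide
  have hf0 : (finRotate 3) (0 : Fin 3) = 1 := by decide
  have hf1 : (finRotate 3) (1 : Fin 3) = 2 := by decide
  have hf2 : (finRotate 3) (2 : Fin 3) = 0 := by decide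
  have hg0 : (finRotate 3).symm (0 : Fin 3) = 2 := by decide
  have hg1 : (finRotate 3).symm (1 : Fin 3) = 0 := by decide
  have hg2 : (finRotate 3).symm (2 : Fin 3) = 1 := by decide
  rcases h with ⟨h1, h2, h3⟩ | ⟨h1, h2, h3⟩ | ⟨h1, h2, h3⟩ | ⟨h1, h2, h3⟩ | ⟨h1, h2, h3⟩ | ⟨h1, h2, h3⟩
  · exact ⟨1, h1, h2, h3⟩
  · -- 12 = a, 02 = c, 01 = b : swap 1 2
    refine ⟨Equiv.swap 1 2, ?_⟩
    rw [hsw12_0, hsw12_1, hsw12_2]
    exact ⟨by rw [dist_comm]; exact h1, h3, h2⟩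
  · -- 12 = b, 02 = a, 01 = c : swap 0 1
    refine ⟨Equiv.swap 0 1, ?_⟩
    rw [hsw01_0, hsw01_1, hsw01_2]
    exact ⟨h2, h1, by rw [dist_comm]; exact h3⟩
  · -- 12 = b, 02 = c, 01 = a
    refine ⟨(finRotate 3).symm, ?_⟩
    rw [hg0, hg1, hg2]
    exact ⟨h3, by rw [dist_comm]; exact h1, by rw [dist_comm]; exact h2⟩
  · -- 12 = c, 02 = a, 01 = b
    refine ⟨finRotate 3, ?_⟩
    rw [hf0, hf1, hf2]
    exact ⟨by rw [dist_comm]; exact h2, by rw [dist_comm]; exact h3, h1⟩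
  · -- 12 = c, 02 = b, 01 = a
    refine ⟨Equiv.swap 0 2, ?_⟩
    rw [hsw02_0, hsw02_1, hsw02_2]
    exact ⟨by rw [dist_comm]; exact h3, by rw [dist_comm]; exact h2, by rw [dist_comm]; exact h1⟩

theorem cut_triSet_perm (Q : Fin 3 → E2) (σ : Equiv.Perm (Fin 3)) :
    TriSet (fun k => Q (σ k)) = TriSet Q := by
  unfold TriSet
  have : Set.range (fun k => Q (σ k)) = Set.range Q := σ.surjective.range_comp Q
  rw [this]

/-- congruence of two triangles with side lengths a, b, c -/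
theorem cut_cong (h : S_ISOM) (a b c : ℝ) (Q R : Fin 3 → E2) (hQ : AffineIndependent ℝ Q)
    (h1 : Sd a b c (dist (Q 1) (Q 2)) (dist (Q 0) (Q 2)) (dist (Q 0) (Q 1)))
    (h2 : Sd a b c (dist (R 1) (R 2)) (dist (R 0) (R 2)) (dist (R 0) (R 1))) :
    ∃ f : E2 ≃ᵢ E2, f '' TriSet Q = TriSet R := by
  obtain ⟨σ, s1, s2, s3⟩ := cut_reorder a b c Q h1
  obtain ⟨τ, t1, t2, t3⟩ := cut_reorder a b c R h2
  obtain ⟨f, hf⟩ := h (fun k => Q (σ k)) (fun k => R (τ k))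
    (hQ.comp_embedding σ.toEmbedding) (by
      intro i j
      fin_cases i <;> fin_cases j <;> simp only [dist_self] <;>
        first
        | (show dist (Q (σ 0)) (Q (σ 1)) = dist (R (τ 0)) (R (τ 1)); rw [s3, t3])
        | (show dist (Q (σ 0)) (Q (σ 2)) = dist (R (τ 0)) (R (τ 2)); rw [s2, t2])
        | (show dist (Q (σ 1)) (Q (σ 2)) = dist (R (τ 1)) (R (τ 2)); rw [s1, t1])
        | (show dist (Q (σ 1)) (Q (σ 0)) = dist (R (τ 1)) (R (τ 0)); rw [dist_comm, s3, dist_comm, t3])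
        | (show dist (Q (σ 2)) (Q (σ 0)) = dist (R (τ 2)) (R (τ 0)); rw [dist_comm, s2, dist_comm, t2])
        | (show dist (Q (σ 2)) (Q (σ 1)) = dist (R (τ 2)) (R (τ 1)); rw [dist_comm, s1, dist_comm, t1]))
  rw [cut_triSet_perm, cut_triSet_perm] at hf
  exact ⟨f, hf⟩

/-- Heron -/
theorem cut_heron (z0 z1 z2 : ℂ) :
    4 * (cr (z1 - z0) (z2 - z0)) ^ 2 = H ‖z1 - z2‖ ‖z0 - z2‖ ‖z0 - z1‖ := by
  have e : ∀ w : ℂ, ‖w‖ ^ 2 = w.re ^ 2 + w.im ^ 2 := by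
    intro w
    rw [Complex.sq_norm, Complex.normSq_apply]; ring
  have e4 : ∀ w : ℂ, ‖w‖ ^ 4 = (w.re ^ 2 + w.im ^ 2) ^ 2 := by
    intro w
    rw [← e w]; ring
  unfold H cr
  rw [e4, e4, e4, e, e, e]
  simp only [Complex.sub_re, Complex.sub_im]
  ring

theorem H_Sd (a b c x y z : ℝ) (h : Sd a b c x y z) : H x y z = H a b c := by
  rcases h with ⟨h1, h2, h3⟩ | ⟨h1, h2, h3⟩ | ⟨h1, h2, h3⟩ | ⟨h1, h2, h3⟩ | ⟨h1, h2, h3⟩ | ⟨h1, h2, h3⟩ <;>
    rw [h1, h2, h3] <;> unfold H <;> ring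

/-- Heron for a triangle in the plane with permuted vertices, moved to the complex plane -/
theorem cut_dd (Q : Fin 3 → E2) (σ : Equiv.Perm (Fin 3)) :
    4 * (dd (fun k => Setup.eC (Q (σ k)))) ^ 2 =
      H (dist (Q 1) (Q 2)) (dist (Q 0) (Q 2)) (dist (Q 0) (Q 1)) := by
  have h1 : 4 * (dd (fun k => Setup.eC (Q (σ k)))) ^ 2 =
      H (dist (Q (σ 1)) (Q (σ 2))) (dist (Q (σ 0)) (Q (σ 2))) (dist (Q (σ 0)) (Q (σ 1))) := by
    unfold dd
    rw [cut_heron, ← dist_eq_norm, ← dist_eq_norm, ← dist_eq_norm, Setup.eC.dist_map,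
      Setup.eC.dist_map, Setup.eC.dist_map]
  rw [h1]
  have key : ∀ σ : Equiv.Perm (Fin 3),
      (σ 0 = 0 ∧ σ 1 = 1 ∧ σ 2 = 2) ∨ (σ 0 = 0 ∧ σ 1 = 2 ∧ σ 2 = 1) ∨
      (σ 0 = 1 ∧ σ 1 = 0 ∧ σ 2 = 2) ∨ (σ 0 = 1 ∧ σ 1 = 2 ∧ σ 2 = 0) ∨
      (σ 0 = 2 ∧ σ 1 = 0 ∧ σ 2 = 1) ∨ (σ 0 = 2 ∧ σ 1 = 1 ∧ σ 2 = 0) := by decide
  rcases key σ with ⟨h0, h1, h2⟩ | ⟨h0, h1, h2⟩ | ⟨h0, h1, h2⟩ | ⟨h0, h1, h2⟩ | ⟨h0, h1, h2⟩ | ⟨h0, h1, h2⟩ <;>
    rw [h0, h1, h2] <;>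
    simp only [dist_comm (Q 2) (Q 1), dist_comm (Q 1) (Q 0), dist_comm (Q 2) (Q 0)] <;>
    unfold H <;> ring

theorem cut_area (a b c : ℝ) (T : Fin 3 → E2) (hT : AffineIndependent ℝ T) (n : ℕ)
    (P : Fin n → Fin 3 → E2) (h : IsT a b c (TriSet T) n P) :
    (n : ℝ) ^ 2 * H a b c = H (side T 0) (side T 1) (side T 2) := by
  obtain ⟨hP, hS, hU, hD⟩ := h
  obtain ⟨ρ, hρ⟩ := Setup.orient T hT
  choose r hr using fun i => Setup.orient (P i) (hP i)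
  have hdis : Dis n (fun k => Setup.eC (T (ρ k))) (fun i k => Setup.eC (P i (r i k))) := by
    refine ⟨hρ, hr, ?_, ?_⟩
    · rw [Setup.hull_img T ρ]
      have : convexHull ℝ (Set.range T) = ⋃ i, TriSet (P i) := hU.symm
      rw [this, Set.image_iUnion]
      refine Set.iUnion_congr fun i => ?_
      exact Setup.hull_img (P i) (r i)
    · intro i j hij
      rw [Setup.hull_img (P i) (r i), Setup.hull_img (P j) (r j)]
      have h1 : ∀ S : Set (EuclideanSpace ℝ (Fin 2)),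
          interior (Setup.eC '' S) = Setup.eC '' interior S :=
        fun S => (Setup.eC.toHomeomorph.image_interior S).symm
      rw [h1, h1]
      exact (Set.disjoint_image_iff Setup.eC.injective).2 (hD i j hij)
  have hsum := AngleSum.area_sum hdis
  have hdd : ∀ i, dd (fun k => Setup.eC (P i (r i k))) = Real.sqrt (H a b c / 4) := by
    intro i
    have e1 := cut_dd (P i) (r i)
    rw [H_Sd a b c _ _ _ (hS i)] at e1
    rw [← e1]
    have e2 : 4 * dd (fun k => Setup.eC (P i (r i k))) ^ 2 / 4 =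
      dd (fun k => Setup.eC (P i (r i k))) ^ 2 := by ring
    rw [e2, Real.sqrt_sq (hr i).le]
  have hH : n ≠ 0 → Real.sqrt (H a b c / 4) ^ 2 = H a b c / 4 := by
    intro hn
    have i : Fin n := ⟨0, Nat.pos_of_ne_zero hn⟩
    have e1 := cut_dd (P i) (r i)
    rw [H_Sd a b c _ _ _ (hS i)] at e1
    apply Real.sq_sqrt
    rw [← e1]; positivity
  have hn : n ≠ 0 := by
    rintro rfl
    rw [Finset.univ_eq_empty, Finset.sum_empty] at hsum
    exact absurd hsum hρ.ne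
  have e3 := cut_dd T ρ
  have e4 : dd (fun k => Setup.eC (T (ρ k))) = n * Real.sqrt (H a b c / 4) := by
    rw [← hsum, Finset.sum_congr rfl (fun i _ => hdd i), Finset.sum_const, Finset.card_univ,
      Fintype.card_fin, nsmul_eq_mul]
  rw [e4] at e3
  have e5 : H (side T 0) (side T 1) (side T 2) =
      H (dist (T 1) (T 2)) (dist (T 0) (T 2)) (dist (T 0) (T 1)) := by
    have s0 : side T 0 = dist (T 1) (T 2) := rfl
    have s1 : side T 1 = dist (T 2) (T 0) := rfl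
    have s2 : side T 2 = dist (T 0) (T 1) := rfl
    rw [s0, s1, s2, dist_comm (T 2) (T 0)]
  rw [e5, ← e3, mul_pow, hH hn]
  ring

/-- JOB CUT -/
theorem t_CUT (h : S_ISOM) : S_CUT := by
  intro a b c T hT hTl
  obtain ⟨n, P, hP⟩ := hTl
  refine ⟨n, ?_, ⟨P, hP.1, ?_, hP.2.2.1, hP.2.2.2⟩, cut_area a b c T hT n P hP⟩
  · by_contra hn
    have hn0 : n = 0 := by omega
    subst hn0
    have h1 : T 0 ∈ TriSet T := subset_convexHull ℝ _ ⟨0, rfl⟩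
    rw [← hP.2.2.1] at h1
    obtain ⟨i, _⟩ := Set.mem_iUnion.1 h1
    exact i.elim0
  · intro i j
    exact cut_cong h a b c (P i) (P j) (hP.1 i) (hP.2.1 i) (hP.2.1 j)

end Q16.SQ
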