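import Pool.Agent.Q17.ML2.Stm
import Pool.Agent.TH365.J3099

/-! # Uniqueness of the middle field

Job MU of project CA of helper17. The group theory: `U ≤ V`, `U ≤ V'` of index two in `V` and `V'`, and
the normal core of `U` has index `2 ^ [G : V]` in the normal core of `V`. Then `V' ≤ V`. -/

set_option autoImplicit false

namespace Pool.Agent.Q162.CAMU

open Pool.Agent.Q17.ML2 IntermediateField

section grp

variable {G : Type*} [Group G] {U V : Subgroup G}

theorem conj_mem (hUV : U ≤ V) (h2 : U.relIndex V = 2) {v u : G} (hv : v ∈ V) (hu : u ∈ U) :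
    v⁻¹ * u * v ∈ U := by
  have h3 : (U.subgroupOf V).index = 2 := h2
  have h4 : (U.subgroupOf V).Normal := Subgroup.normal_of_index_eq_two h3
  have h5 := h4.conj_mem ⟨u, hUV hu⟩ (by rw [Subgroup.mem_subgroupOf]; exact hu)
    ⟨v⁻¹, V.inv_mem hv⟩
  rw [Subgroup.mem_subgroupOf] at h5
  simpa using h5

theorem mul_mem_iff' (h2 : U.relIndex V = 2) {a b : G} (ha : a ∈ V) (hb : b ∈ V) :
    a * b ∈ U ↔ (a ∈ U ↔ b ∈ U) := by
  have h3 : (U.subgroupOf V).index = 2 := h2
  have h5 := Subgroup.mul_mem_iff_of_index_two h3 (a := ⟨a, ha⟩) (b := ⟨b, hb⟩)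
  simpa [Subgroup.mem_subgroupOf] using h5

theorem exists_c (hUV : U ≤ V) (h2 : U.relIndex V = 2) (hV : V.index ≠ 0)
    (hcard : U.normalCore.relIndex V.normalCore = 2 ^ V.index) :
    ∃ c ∈ V, c ∉ U ∧ ∀ g, g ∉ V → g⁻¹ * c * g ∈ U := by
  classical
  have hfi : V.FiniteIndex := ⟨hV⟩
  have hfin : Finite (G ⧸ V) := Subgroup.finite_quotient_of_finiteIndex
  let Θ : V.normalCore → (G ⧸ V → Bool) := fun c q =>
    decide ((Quotient.out q)⁻¹ * (c : G) * Quotient.out q ∈ U)
  have hΘ : ∀ (c : V.normalCore) (q : G ⧸ V), Θ c q = true ↔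
      (Quotient.out q)⁻¹ * (c : G) * Quotient.out q ∈ U := fun c q => by simp [Θ]
  have hCV : ∀ (c : G), c ∈ V.normalCore → ∀ g : G, g⁻¹ * c * g ∈ V := by
    intro c hc g
    have h := (Subgroup.normalCore_normal V).conj_mem c hc g⁻¹
    rw [inv_inv] at h
    exact V.normalCore_le h
  have hrep : ∀ g : G, ∃ v ∈ V, g = Quotient.out (g : G ⧸ V) * v := by
    intro g
    refine ⟨(Quotient.out (g : G ⧸ V))⁻¹ * g, ?_, by group⟩
    rw [← QuotientGroup.eq]
    exact QuotientGroup.out_eq' _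
  have hinj0 : ∀ c c' : V.normalCore, Θ c = Θ c' →
      c⁻¹ * c' ∈ U.normalCore.subgroupOf V.normalCore := by
    intro c c' h
    rw [Subgroup.mem_subgroupOf]
    intro b
    obtain ⟨v, hv, hg⟩ := hrep b⁻¹
    set o := Quotient.out ((b⁻¹ : G) : G ⧸ V) with ho
    have h1 : (o⁻¹ * (c : G) * o ∈ U) ↔ (o⁻¹ * (c' : G) * o ∈ U) := by
      rw [ho, ← hΘ, ← hΘ, h]
    have h3 : (o⁻¹ * (c : G) * o)⁻¹ * (o⁻¹ * (c' : G) * o) ∈ U := by
      rw [mul_mem_iff' h2 (V.inv_mem (hCV _ c.2 o)) (hCV _ c'.2 o), U.inv_mem_iff, h1]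
    have h4 := conj_mem hUV h2 hv h3
    have hb : b = (o * v)⁻¹ := by rw [← hg, inv_inv]
    have h5 : b * ((c⁻¹ * c' : V.normalCore) : G) * b⁻¹ =
        v⁻¹ * ((o⁻¹ * (c : G) * o)⁻¹ * (o⁻¹ * (c' : G) * o)) * v := by
      rw [hb, Subgroup.coe_mul, Subgroup.coe_inv]
      group
    rw [h5]
    exact h4
  let Ψ : (V.normalCore ⧸ U.normalCore.subgroupOf V.normalCore) → (G ⧸ V → Bool) :=
    fun x => Θ (Quotient.out x)
  have hΨ : Function.Injective Ψ := by
    intro x y hxy
    have h := hinj0 _ _ hxy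
    rw [← QuotientGroup.eq, QuotientGroup.out_eq', QuotientGroup.out_eq'] at h
    exact h
  have hcards : Nat.card (G ⧸ V → Bool) =
      Nat.card (V.normalCore ⧸ U.normalCore.subgroupOf V.normalCore) := by
    have h1 : Nat.card (V.normalCore ⧸ U.normalCore.subgroupOf V.normalCore) = 2 ^ V.index := hcard
    rw [h1, Nat.card_fun]
    simp [Subgroup.index]
  have hfin2 : Finite (G ⧸ V → Bool) := inferInstance
  have hbij : Function.Bijective Ψ := by
    exact hΨ.bijective_of_nat_card_le hcards.le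
  obtain ⟨x, hx⟩ := hbij.2 (fun q => decide (q ≠ ((1 : G) : G ⧸ V)))
  set c : V.normalCore := Quotient.out x with hc
  have hcq : ∀ q : G ⧸ V, ((Quotient.out q)⁻¹ * (c : G) * Quotient.out q ∈ U) ↔
      q ≠ ((1 : G) : G ⧸ V) := by
    intro q
    have h1 : Θ c q = decide (q ≠ ((1 : G) : G ⧸ V)) := congrFun hx q
    rw [← hΘ, h1, decide_eq_true_eq]
  refine ⟨c, V.normalCore_le c.2, ?_, ?_⟩
  · intro hcU
    obtain ⟨v, hv, hg⟩ := hrep 1
    have h1 : Quotient.out ((1 : G) : G ⧸ V) = v⁻¹ := by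
      rw [eq_inv_iff_mul_eq_one, ← hg]
    have h2' := (hcq ((1 : G) : G ⧸ V)).1 (by
      rw [h1]
      exact conj_mem hUV h2 (V.inv_mem hv) hcU)
    exact h2' rfl
  · intro g hgV
    obtain ⟨v, hv, hg⟩ := hrep g
    have h1 : (g : G ⧸ V) ≠ ((1 : G) : G ⧸ V) := by
      intro h
      rw [QuotientGroup.eq, mul_one, V.inv_mem_iff] at h
      exact hgV h
    have h3 := conj_mem hUV h2 hv ((hcq (g : G ⧸ V)).2 h1)
    have h4 : g⁻¹ * (c : G) * g = v⁻¹ * ((Quotient.out (g : G ⧸ V))⁻¹ * (c : G) *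
        Quotient.out (g : G ⧸ V)) * v := by
      conv_lhs => rw [hg]
      group
    rw [h4]
    exact h3

theorem le_of (V' : Subgroup G) (hUV : U ≤ V) (hUV' : U ≤ V') (h2 : U.relIndex V = 2)
    (h2' : U.relIndex V' = 2) (hV : V.index ≠ 0)
    (hcard : U.normalCore.relIndex V.normalCore = 2 ^ V.index) : V' ≤ V := by
  obtain ⟨c, hcV, hcU, hc⟩ := exists_c hUV h2 hV hcard
  intro v' hv'
  by_contra hv
  have h1 : v'⁻¹ * c * v' ∈ V' := hUV' (hc v' hv)
  have h3 : c ∈ V' := by
    have h4 := V'.mul_mem (V'.mul_mem hv' h1) (V'.inv_mem hv')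
    have h5 : v' * (v'⁻¹ * c * v') * v'⁻¹ = c := by group
    rwa [h5] at h4
  have h4 : v' ∉ U := fun h => hv (hUV h)
  have h5 : c⁻¹ * v' ∈ U := by
    rw [mul_mem_iff' h2' (V'.inv_mem h3) hv', U.inv_mem_iff]
    exact ⟨fun h => absurd h hcU, fun h => absurd h h4⟩
  have h6 := V.mul_mem hcV (hUV h5)
  rw [mul_inv_cancel_left] at h6
  exact hv h6

end grp

section fld

variable {K Ω : Type} [Field K] [CharZero K] [Field Ω] [Algebra K Ω] [IsGalois K Ω]

omit [CharZero K] in
theorem fix_ncl (L : IntermediateField K Ω) :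
    (normalClosure K L Ω).fixingSubgroup = L.fixingSubgroup.normalCore := by
  apply le_antisymm
  · have hn : ((normalClosure K L Ω).fixingSubgroup).Normal := by
      rw [← Pool.Agent.TH365.J3099.ker_act]
      infer_instance
    rw [Subgroup.normal_le_normalCore]
    exact IntermediateField.fixingSubgroup_antitone (IntermediateField.le_normalClosure L)
  · have hg : IsGalois K (fixedField (L.fixingSubgroup.normalCore)) := inferInstance
    have h1 : L ≤ fixedField (L.fixingSubgroup.normalCore) := by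
      rw [IntermediateField.le_iff_le]
      exact Subgroup.normalCore_le _
    rw [← IntermediateField.le_iff_le]
    exact normalClosure_le_iff_of_normal.2 h1

omit [CharZero K] in
theorem relIndex_fix {M L : IntermediateField K Ω} [FiniteDimensional K L] (h : M ≤ L) (k : ℕ)
    (hk : Module.finrank K L = k * Module.finrank K M) :
    L.fixingSubgroup.relIndex M.fixingSubgroup = k := by
  have h1 : L.fixingSubgroup ≤ M.fixingSubgroup := IntermediateField.fixingSubgroup_antitone h
  have h2 := Subgroup.relIndex_mul_index h1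
  rw [← finrank_eq_fixingSubgroup_index, ← finrank_eq_fixingSubgroup_index, hk] at h2
  have h3 : 0 < Module.finrank K L := Module.finrank_pos
  have h4 : 0 < Module.finrank K M := by
    rcases Nat.eq_zero_or_pos (Module.finrank K M) with h5 | h5
    · rw [hk, h5, mul_zero] at h3
      exact absurd h3 (lt_irrefl 0)
    · exact h5
  exact Nat.eq_of_mul_eq_mul_right h4 h2

end fld

theorem t_MU : S_MU := by
  intro _ K Ω _ _ _ _ _ H _ _ W _ L M M' h h'
  have i1 : IsAlgClosed Ω := IsAlgClosure.isAlgClosed K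
  have i2 : Normal K Ω := IsAlgClosure.normal K Ω
  have i3 : Algebra.IsAlgebraic K Ω := IsAlgClosure.isAlgebraic
  have i4 : Algebra.IsSeparable K Ω := inferInstance
  have i5 : IsGalois K Ω := ⟨⟩
  obtain ⟨hM, hML, hLfd, hLM, hN⟩ := h
  obtain ⟨hM', hML', -, hLM', hN'⟩ := h'
  have hr : Module.finrank K M = Module.finrank K M' := by
    have := hLM.symm.trans hLM'
    omega
  have hpos : 0 < Module.finrank K L := Module.finrank_pos
  have hMpos : 0 < Module.finrank K M := by omega
  have hMfd : FiniteDimensional K M := hM.1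
  have hMfd' : FiniteDimensional K M' := hM'.1
  have hnle : normalClosure K M Ω ≤ normalClosure K L Ω := normalClosure_mono M L hML
  have h1 := relIndex_fix hML 2 hLM
  have h2 := relIndex_fix hML' 2 hLM'
  have h3 := relIndex_fix hnle _ hN
  rw [fix_ncl, fix_ncl] at h3
  have hle : M'.fixingSubgroup ≤ M.fixingSubgroup := by
    refine le_of (U := L.fixingSubgroup) (V := M.fixingSubgroup) M'.fixingSubgroup
      (IntermediateField.fixingSubgroup_antitone hML)
      (IntermediateField.fixingSubgroup_antitone hML') h1 h2 ?_ ?_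
    · rw [← finrank_eq_fixingSubgroup_index]
      omega
    · rw [h3, ← finrank_eq_fixingSubgroup_index]
  have hMM : M ≤ M' := by
    have h4 : M ≤ fixedField M'.fixingSubgroup := by
      rw [IntermediateField.le_iff_le]
      exact hle
    rwa [InfiniteGalois.fixedField_fixingSubgroup] at h4
  exact IntermediateField.eq_of_le_of_finrank_le hMM hr.ge

end Pool.Agent.Q162.CAMU
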