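import Mathlib
import Pool.Agent.W232.CatCheck

set_option autoImplicit false

namespace Q162.Cat7

open Pool.Agent.W232.Cat

/-- the candidate partitions: the class representatives and the two blocks -/
def cands5 : List ((Fin 7 → Fin 7) × List ℕ × List ℕ) :=
  [(![0, 1, 2, 3, 3, 5, 5], [3,4], [5,6]),
   (![0, 1, 2, 3, 2, 5, 5], [2,4], [5,6]),
   (![0, 1, 2, 3, 1, 5, 5], [1,4], [5,6]),
   (![0, 1, 2, 3, 0, 5, 5], [0,4], [5,6]),
   (![0, 1, 2, 2, 4, 5, 5], [2,3], [5,6]),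
   (![0, 1, 2, 2, 4, 5, 4], [2,3], [4,6]),
   (![0, 0, 2, 3, 4, 5, 4], [0,1], [4,6]),
   (![0, 1, 1, 3, 4, 5, 3], [1,2], [3,6]),
   (![0, 1, 2, 1, 4, 5, 4], [1,3], [4,6]),
   (![0, 1, 0, 3, 4, 5, 3], [0,2], [3,6]),
   (![0, 1, 2, 0, 4, 4, 6], [0,3], [4,5]),
   (![0, 0, 2, 3, 4, 2, 6], [0,1], [2,5]),
   (![0, 1, 0, 3, 3, 5, 6], [0,2], [3,4]),
   (![0, 1, 1, 3, 4, 4, 6], [1,2], [4,5]),
   (![0, 1, 0, 3, 4, 3, 6], [0,2], [3,5]),
   (![0, 0, 2, 3, 4, 5, 2], [0,1], [2,6]),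
   (![0, 1, 2, 0, 4, 5, 4], [0,3], [4,6]),
   (![0, 1, 2, 2, 4, 4, 6], [2,3], [4,5]),
   (![0, 1, 1, 3, 4, 3, 6], [1,2], [3,5]),
   (![0, 1, 2, 1, 4, 4, 6], [1,3], [4,5]),
   (![0, 0, 2, 3, 3, 5, 6], [0,1], [3,4]),
   (![0, 1, 1, 3, 3, 5, 6], [1,2], [3,4]),
   (![0, 1, 0, 3, 4, 5, 4], [0,2], [4,6]),
   (![0, 1, 1, 3, 4, 5, 4], [1,2], [4,6]),
   (![0, 1, 0, 3, 4, 4, 6], [0,2], [4,5]),
   (![0, 0, 2, 2, 4, 5, 6], [0,1], [2,3]),
   (![0, 0, 2, 3, 4, 4, 6], [0,1], [4,5]),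
   (![0, 1, 1, 3, 3, 5, 3], [1,2], [3,4,6]),
   (![0, 1, 1, 3, 3, 3, 6], [1,2], [3,4,5]),
   (![0, 1, 1, 1, 4, 5, 4], [1,2,3], [4,6]),
   (![0, 1, 1, 1, 4, 4, 6], [1,2,3], [4,5]),
   (![0, 1, 0, 3, 3, 5, 3], [0,2], [3,4,6]),
   (![0, 1, 0, 3, 3, 3, 6], [0,2], [3,4,5]),
   (![0, 1, 0, 0, 4, 5, 4], [0,2,3], [4,6]),
   (![0, 1, 0, 0, 4, 4, 6], [0,2,3], [4,5])]

/-- at least `k` of the candidates are separated by `b` -/
def cntGe (b : List ℕ) : ℕ → List ((Fin 7 → Fin 7) × List ℕ × List ℕ) → Bool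
  | 0, _ => true
  | (_ + 1), [] => false
  | (k + 1), c :: cs => if sepL b c.2.1 c.2.2 then cntGe b k cs else cntGe b (k + 1) cs

theorem cntGe_spec (b : List ℕ) (cs : List ((Fin 7 → Fin 7) × List ℕ × List ℕ)) :
    ∀ k, cntGe b k cs = true → ∃ l : List ((Fin 7 → Fin 7) × List ℕ × List ℕ),
      l.Sublist cs ∧ l.length = k ∧ ∀ c ∈ l, sepL b c.2.1 c.2.2 = true := by
  induction cs with
  | nil =>
    intro k h
    cases k with
    | zero => exact ⟨[], List.Sublist.refl _, rfl, by simp⟩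
    | succ k => simp [cntGe] at h
  | cons c cs ih =>
    intro k h
    cases k with
    | zero => exact ⟨[], List.nil_sublist _, rfl, by simp⟩
    | succ k =>
      unfold cntGe at h
      by_cases hc : sepL b c.2.1 c.2.2 = true
      · rw [if_pos hc] at h
        obtain ⟨l, h1, h2, h3⟩ := ih k h
        refine ⟨c :: l, h1.cons_cons c, by rw [List.length_cons, h2], ?_⟩
        intro x hx
        rcases List.mem_cons.mp hx with rfl | hx
        · exact hc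
        · exact h3 x hx
      · rw [if_neg hc] at h
        obtain ⟨l, h1, h2, h3⟩ := ih (k + 1) h
        exact ⟨l, h1.cons c, h2, h3⟩

/-- every labelling separates at least five candidates -/
def chk5 : Bool :=
  R5.all fun b0 => R5.all fun b1 => R5.all fun b2 => !(okp [b0, b1, b2]) || R5.all fun b3 =>
    !(okp [b0, b1, b2, b3]) || R5.all fun b4 => !(okp [b0, b1, b2, b3, b4]) || R5.all fun b5 =>
    !(okp [b0, b1, b2, b3, b4, b5]) || R5.all fun b6 => !(okp [b0, b1, b2, b3, b4, b5, b6]) ||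
      cntGe [b0, b1, b2, b3, b4, b5, b6] 5 cands5

set_option maxRecDepth 100000 in
theorem chk5_true : chk5 = true := by decide +kernel

theorem chk5_spec (b : Fin 7 → Fin 5)
    (hb : ∀ v, (Finset.univ.filter (fun i => b i = v)).card =
      (Finset.univ.filter (fun i => a0 i = v)).card) :
    ∃ l : List ((Fin 7 → Fin 7) × List ℕ × List ℕ), l.Sublist cands5 ∧ l.length = 5 ∧
      ∀ c ∈ l, sepL [(b 0 : ℕ), b 1, b 2, b 3, b 4, b 5, b 6] c.2.1 c.2.2 = true := by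
  have hR : ∀ x : Fin 5, (x : ℕ) ∈ R5 := by decide
  have hpre : ∀ l : List ℕ, l.Sublist [(b 0 : ℕ), b 1, b 2, b 3, b 4, b 5, b 6] → okp l = true := by
    intro l hl
    have hc : ∀ v : Fin 5, l.count (v : ℕ) ≤ (Finset.univ.filter (fun i => a0 i = v)).card := by
      intro v
      rw [← hb v, ← count_spec]
      exact hl.count_le _
    have c0 := hc 0
    have c1 := hc 1
    have c2 := hc 2
    have c3 := hc 3
    have c4 := hc 4
    have d0 : (Finset.univ.filter (fun i => a0 i = 0)).card = 2 := by decide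
    have d1 : (Finset.univ.filter (fun i => a0 i = 1)).card = 1 := by decide
    have d2 : (Finset.univ.filter (fun i => a0 i = 2)).card = 1 := by decide
    have d3 : (Finset.univ.filter (fun i => a0 i = 3)).card = 1 := by decide
    have d4 : (Finset.univ.filter (fun i => a0 i = 4)).card = 2 := by decide
    rw [d0] at c0
    rw [d1] at c1
    rw [d2] at c2
    rw [d3] at c3
    rw [d4] at c4
    exact okp_of_le l c0 c1 c2 c3 c4
  have h := chk5_true
  unfold chk5 at h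
  simp only [List.all_eq_true] at h
  have h3 := h _ (hR (b 0)) _ (hR (b 1)) _ (hR (b 2))
  rw [hpre [(b 0 : ℕ), b 1, b 2] (by
    exact List.sublist_append_left [(b 0 : ℕ), b 1, b 2] [(b 3 : ℕ), b 4, b 5, b 6])] at h3
  simp only [Bool.not_true, Bool.false_or, List.all_eq_true] at h3
  have h4 := h3 _ (hR (b 3))
  rw [hpre [(b 0 : ℕ), b 1, b 2, b 3] (by
    exact List.sublist_append_left [(b 0 : ℕ), b 1, b 2, b 3] [(b 4 : ℕ), b 5, b 6])] at h4
  simp only [Bool.not_true, Bool.false_or, List.all_eq_true] at h4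
  have h5 := h4 _ (hR (b 4))
  rw [hpre [(b 0 : ℕ), b 1, b 2, b 3, b 4] (by
    exact List.sublist_append_left [(b 0 : ℕ), b 1, b 2, b 3, b 4] [(b 5 : ℕ), b 6])] at h5
  simp only [Bool.not_true, Bool.false_or, List.all_eq_true] at h5
  have h6 := h5 _ (hR (b 5))
  rw [hpre [(b 0 : ℕ), b 1, b 2, b 3, b 4, b 5] (by
    exact List.sublist_append_left [(b 0 : ℕ), b 1, b 2, b 3, b 4, b 5] [(b 6 : ℕ)])] at h6
  simp only [Bool.not_true, Bool.false_or, List.all_eq_true] at h6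
  have h7 := h6 _ (hR (b 6))
  rw [hpre [(b 0 : ℕ), b 1, b 2, b 3, b 4, b 5, b 6] (List.Sublist.refl _)] at h7
  simp only [Bool.not_true, Bool.false_or] at h7
  exact cntGe_spec _ _ _ h7

end Q162.Cat7
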