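import Mathlib
import Pool.Agent.Q127.DJ.Stm

set_option autoImplicit false

/-!
# Two one-sided square summable sequences with a zero cross correlation (project DJ of helper127)
-/

namespace Pool.Agent.Q162.DJ_HIL

open Pool.Agent.Q127.DJ

/-- the two-sided sequences -/
abbrev H : Type := lp (fun _ : ℤ => ℝ) 2

lemma mem2 {f : ℤ → ℝ} (h : Summable fun i => f i ^ 2) : Memℓp f 2 := by
  rw [memℓp_gen_iff (by norm_num)]
  simpa using h

lemma sq_summable (x : H) : Summable fun i => x i ^ 2 := by
  have h := (memℓp_gen_iff (by norm_num : 0 < (2 : ENNReal).toReal)).1 (lp.memℓp x)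
  simpa using h

lemma inn (x y : H) : inner ℝ x y = ∑' i, x i * y i := by
  rw [lp.inner_eq_tsum]
  refine tsum_congr fun i => ?_
  simp [mul_comm]

/-- the shift by `n` -/
noncomputable def shf (n : ℤ) (x : H) : H :=
  ⟨fun i => x (i - n), mem2 (f := fun i => x (i - n)) (by
    have := (Equiv.subRight n).summable_iff.2 (sq_summable x)
    simpa [Function.comp_def] using this)⟩

@[simp] lemma shf_apply (n : ℤ) (x : H) (i : ℤ) : shf n x i = x (i - n) := rfl

lemma inner_shf (n : ℤ) (x y : H) : inner ℝ (shf n x) (shf n y) = inner ℝ x y := by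
  rw [inn, inn]
  exact (Equiv.subRight n).tsum_eq fun i => x i * y i

/-- the shift as a linear isometry -/
noncomputable def sh (n : ℤ) : H →ₗᵢ[ℝ] H where
  toFun := shf n
  map_add' x y := by ext i; simp
  map_smul' c x := by ext i; simp
  norm_map' x := by
    have h := inner_shf n x x
    rw [real_inner_self_eq_norm_sq, real_inner_self_eq_norm_sq] at h
    exact (sq_eq_sq₀ (norm_nonneg _) (norm_nonneg _)).1 h

@[simp] lemma sh_apply (n : ℤ) (x : H) (i : ℤ) : sh n x i = x (i - n) := rfl

lemma sh_sh (m n : ℤ) (x : H) : sh m (sh n x) = sh (m + n) x := by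
  ext i
  simp only [sh_apply]
  rw [show i - m - n = i - (m + n) by ring]

lemma sh_zero (x : H) : sh 0 x = x := by
  ext i
  simp

lemma inner_sh (n : ℤ) (x y : H) : inner ℝ (sh n x) (sh n y) = inner ℝ x y := (sh n).inner_map_map x y

/-- the extension by zero -/
noncomputable def ext (α : ℕ → ℝ) (h : Summable fun k => α k ^ 2) : H :=
  ⟨fun i => if 0 ≤ i then α i.toNat else 0, mem2 (by
    have hi : Function.Injective (fun k : ℕ => (k : ℤ)) := fun a b hab => by simpa using hab
    refine (hi.summable_iff ?_).1 ?_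
    · intro x hx
      have : ¬ 0 ≤ x := fun h0 => hx ⟨x.toNat, by simp [h0]⟩
      simp [this]
    · simpa [Function.comp_def] using h)⟩

lemma ext_nat (α : ℕ → ℝ) (h : Summable fun k => α k ^ 2) (k : ℕ) : ext α h (k : ℤ) = α k := by
  show (if (0 : ℤ) ≤ (k : ℤ) then α (k : ℤ).toNat else 0) = α k
  simp

lemma ext_neg (α : ℕ → ℝ) (h : Summable fun k => α k ^ 2) (i : ℤ) (hi : i < 0) : ext α h i = 0 := by
  show (if (0 : ℤ) ≤ i then α i.toNat else 0) = 0
  simp [not_le.2 hi]

theorem hil : S_hil := by
  intro α β hα hβ ha0 hb0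
  by_contra hcon
  push Not at hcon
  set a : H := ext α hα with ha
  set b : H := ext β hβ with hb
  have hinj : Function.Injective (fun k : ℕ => (k : ℤ)) := fun a b hab => by simpa using hab
  -- all inner products vanish
  have key : ∀ m : ℤ, inner ℝ a (sh m b) = 0 := by
    intro m
    rw [inn]
    simp only [sh_apply]
    rcases le_total 0 m with hm | hm
    · obtain ⟨j, rfl⟩ := Int.eq_ofNat_of_zero_le hm
      have hinj' : Function.Injective (fun k : ℕ => ((k : ℤ) + j)) := fun a b hab => by
        simpa using hab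
      rw [← hinj'.tsum_eq]
      · have := (hcon j).2
        rw [← this]
        refine tsum_congr fun k => ?_
        have h1 : a ((k : ℤ) + j) = α (k + j) := by
          have := ext_nat α hα (k + j)
          push_cast at this
          exact this
        have h2 : b ((k : ℤ) + j - j) = β k := by
          rw [add_sub_cancel_right]
          exact ext_nat β hβ k
        simp only [h1, h2]
      · intro i hi
        by_contra hni
        apply hi
        have : i - (j : ℤ) < 0 := by
          by_contra h0
          push Not at h0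
          exact hni ⟨(i - j).toNat, by
            show (((i - (j : ℤ)).toNat : ℕ) : ℤ) + j = i
            omega⟩
        have h2 : b (i - j) = 0 := ext_neg β hβ _ this
        simp only [h2, mul_zero]
    · obtain ⟨j, hj⟩ := Int.eq_ofNat_of_zero_le (neg_nonneg.2 hm)
      have hm' : m = -(j : ℤ) := by omega
      subst hm'
      rw [← hinj.tsum_eq]
      · have := (hcon j).1
        rw [← this]
        refine tsum_congr fun k => ?_
        have h1 : a (k : ℤ) = α k := ext_nat α hα k
        have h2 : b ((k : ℤ) - -(j : ℤ)) = β (k + j) := by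
          have := ext_nat β hβ (k + j)
          push_cast at this
          rw [sub_neg_eq_add]
          exact this
        simp only [h1, h2]
      · intro i hi
        by_contra hni
        apply hi
        have : i < 0 := by
          by_contra h0
          push Not at h0
          exact hni ⟨i.toNat, by simp [Int.toNat_of_nonneg h0]⟩
        have h2 : a i = 0 := ext_neg α hα _ this
        simp only [h2, zero_mul]
  -- the closed spans
  let F : ℕ → Submodule ℝ H := fun n => (Submodule.span ℝ {x | ∃ j : ℕ, n ≤ j ∧ x = sh j b}).topologicalClosure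
  have Fmin : ∀ (n : ℕ) (G : Submodule ℝ H), IsClosed (G : Set H) → (∀ j : ℕ, n ≤ j → sh j b ∈ G) → F n ≤ G := by
    intro n G hG h
    refine Submodule.topologicalClosure_minimal _ (Submodule.span_le.2 ?_) hG
    rintro x ⟨j, hj, rfl⟩
    exact h j hj
  have Fmem : ∀ (n j : ℕ), n ≤ j → sh j b ∈ F n := fun n j h =>
    Submodule.le_topologicalClosure _ (Submodule.subset_span ⟨j, h, rfl⟩)
  -- evaluation
  have Fvan : ∀ (n : ℕ) (i : ℤ), i < n → ∀ x ∈ F n, x i = 0 := by
    intro n i hi x hx
    have h := Fmin n (Submodule.span ℝ {(lp.single 2 i (1 : ℝ) : H)})ᗮ (Submodule.isClosed_orthogonal _) (by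
      intro j hj
      rw [Submodule.mem_orthogonal_singleton_iff_inner_right]
      rw [lp.inner_single_left]
      have : (sh j b) i = 0 := by
        rw [sh_apply]
        exact ext_neg β hβ _ (by omega)
      simp only [this, inner_zero_right]) hx
    rw [Submodule.mem_orthogonal_singleton_iff_inner_right, lp.inner_single_left] at h
    simpa using h
  -- the wandering vector
  have : CompleteSpace (F 1) := (Submodule.isClosed_topologicalClosure _).completeSpace_coe
  set w : H := (F 1).starProjection b with hw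
  have hwm : w ∈ F 1 := Submodule.starProjection_apply_mem _ _
  set u : H := b - w with hu
  have hub : ∀ y ∈ F 1, inner ℝ y u = 0 := by
    intro y hy
    have := Submodule.sub_starProjection_mem_orthogonal (K := F 1) b
    exact (Submodule.mem_orthogonal _ _).1 this y hy
  have hF10 : F 1 ≤ F 0 := Fmin 1 (F 0) (Submodule.isClosed_topologicalClosure _) fun j _ => Fmem 0 j (Nat.zero_le _)
  have hbF : b ∈ F 0 := by
    have := Fmem 0 0 le_rfl
    simpa [sh_zero] using this
  have huF : u ∈ F 0 := Submodule.sub_mem _ hbF (hF10 hwm)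
  have hu0 : u ≠ 0 := by
    intro h0
    have h1 : b ∈ F 1 := by
      rw [sub_eq_zero.1 h0]
      exact hwm
    have h2 := Fvan 1 0 (by norm_num) b h1
    have h3 : b ((0 : ℕ) : ℤ) = β 0 := ext_nat β hβ 0
    apply hb0
    rw [← h3]
    simpa using h2
  -- orthogonality of the shifts of `u`
  have hsF : ∀ m : ℕ, 1 ≤ m → ∀ x ∈ F 0, sh m x ∈ F 1 := by
    intro m hm x hx
    have := Fmin 0 ((F 1).comap (sh m).toLinearMap) ?_ ?_ hx
    · exact this
    · exact (Submodule.isClosed_topologicalClosure _).preimage (sh m).continuous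
    · intro j _
      show sh m (sh j b) ∈ F 1
      rw [sh_sh]
      have := Fmem 1 (m + j) (by omega)
      push_cast at this
      exact this
  have horth : ∀ m : ℕ, 1 ≤ m → inner ℝ (sh m u) u = 0 := fun m hm => hub _ (hsF m hm u huF)
  have horth2 : ∀ i j : ℤ, i ≠ j → inner ℝ (sh i u) (sh j u) = 0 := by
    have main : ∀ i j : ℤ, j < i → inner ℝ (sh i u) (sh j u) = 0 := by
      intro i j hij
      obtain ⟨m, hm⟩ := Int.eq_ofNat_of_zero_le (show 0 ≤ i - j by omega)
      have : sh i u = sh j (sh m u) := by
        rw [sh_sh, show j + (m : ℤ) = i by omega]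
      rw [this, inner_sh]
      exact horth m (by omega)
    intro i j hij
    rcases lt_or_gt_of_ne hij with h | h
    · rw [real_inner_comm]
      exact main j i h
    · exact main i j h
  -- `a` is orthogonal to all shifts of `u`
  have hau : ∀ m : ℤ, inner ℝ a (sh m u) = 0 := by
    intro m
    have := Fmin 0 ((Submodule.span ℝ {a})ᗮ.comap (sh m).toLinearMap) ?_ ?_ huF
    · exact (Submodule.mem_orthogonal_singleton_iff_inner_right).1 this
    · exact (Submodule.isClosed_orthogonal _).preimage (sh m).continuous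
    · intro j _
      show sh m (sh j b) ∈ (Submodule.span ℝ {a})ᗮ
      rw [Submodule.mem_orthogonal_singleton_iff_inner_right, sh_sh]
      exact key _
  -- the orthonormal family
  have hnu : ‖u‖ ≠ 0 := norm_ne_zero_iff.2 hu0
  let v : ℤ → H := fun j => ‖u‖⁻¹ • sh j u
  have hv : Orthonormal ℝ v := by
    constructor
    · intro j
      show ‖‖u‖⁻¹ • sh j u‖ = 1
      rw [norm_smul, LinearIsometry.norm_map, norm_inv, norm_norm, inv_mul_cancel₀ hnu]
    · intro i j hij
      show inner ℝ (‖u‖⁻¹ • sh i u) (‖u‖⁻¹ • sh j u) = 0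
      rw [inner_smul_left, inner_smul_right, horth2 i j hij, mul_zero, mul_zero]
  set e : H := lp.single 2 (0 : ℤ) (1 : ℝ) with he
  have hee : ‖e‖ = 1 := by
    rw [he, lp.norm_single (by norm_num)]
    simp
  have hae : inner ℝ a e = α 0 := by
    rw [real_inner_comm, he, lp.inner_single_left]
    have := ext_nat α hα 0
    simp only [Nat.cast_zero] at this
    rw [this]
    simp
  have han : ‖a‖ ≠ 0 := by
    intro h0
    rw [norm_eq_zero] at h0
    rw [h0, inner_zero_left] at hae
    exact ha0 hae.symm
  have hve : ∀ j : ℤ, inner ℝ (v j) e = ‖u‖⁻¹ * u (-j) := by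
    intro j
    show inner ℝ (‖u‖⁻¹ • sh j u) e = _
    rw [inner_smul_left, real_inner_comm, he, lp.inner_single_left, sh_apply]
    simp
  set e' : H := e - (α 0 / ‖a‖ ^ 2) • a with he'
  have hva : ∀ j : ℤ, inner ℝ (v j) a = 0 := by
    intro j
    show inner ℝ (‖u‖⁻¹ • sh j u) a = _
    rw [inner_smul_left, real_inner_comm, hau j, mul_zero]
  have hve' : ∀ j : ℤ, inner ℝ (v j) e' = ‖u‖⁻¹ * u (-j) := by
    intro j
    rw [he', inner_sub_right, inner_smul_right, hva, hve, mul_zero, sub_zero]
  have hbes := hv.tsum_inner_products_le e'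
  have hsum : ∑' j : ℤ, ‖inner ℝ (v j) e'‖ ^ 2 = 1 := by
    have h1 : ∀ j : ℤ, ‖inner ℝ (v j) e'‖ ^ 2 = (‖u‖ ^ 2)⁻¹ * (u (-j) * u (-j)) := by
      intro j
      rw [hve', Real.norm_eq_abs, sq_abs]
      field_simp
    rw [tsum_congr h1, tsum_mul_left]
    have h2 : ∑' j : ℤ, u (-j) * u (-j) = ‖u‖ ^ 2 := by
      rw [← real_inner_self_eq_norm_sq, inn]
      exact (Equiv.neg ℤ).tsum_eq fun i => u i * u i
    rw [h2, inv_mul_cancel₀ (pow_ne_zero 2 hnu)]
  have hne : ‖e'‖ ^ 2 = 1 - α 0 ^ 2 / ‖a‖ ^ 2 := by
    rw [he', norm_sub_sq_real, inner_smul_right, norm_smul, hee, real_inner_comm, hae, mul_pow, Real.norm_eq_abs,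
      sq_abs]
    field_simp
    ring
  rw [hsum, hne] at hbes
  have hpos : 0 < α 0 ^ 2 / ‖a‖ ^ 2 := by positivity
  linarith

end Pool.Agent.Q162.DJ_HIL
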