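import Pool.Agent.Q88.MT.Stm

set_option autoImplicit false

open Set Filter Topology

namespace Pool.Agent.Q162.MT

open Pool.Agent.Q88.MT

theorem sy_zero {n : ℕ} (k : Fin n → ℤ) : sy k (fun _ => 0) = 1 := by
  unfold sy
  simp only [zero_mul, Finset.sum_const_zero, Complex.ofReal_zero, Complex.exp_zero,
    Finset.sum_const, Finset.card_univ, Fintype.card_perm, Fintype.card_fin, nsmul_eq_mul, mul_one]
  exact one_div_mul_cancel (by exact_mod_cast Nat.factorial_ne_zero n)

theorem dis (h : S_bas) (h1 : S_bdd) (h2 : S_inv) (h3 : S_box) (h4 : S_gro) (h5 : S_zer) :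
    S_dis := by
  intro n k b l hk hl
  by_cases hl0 : l = 0
  · rw [hl0]
    exact h5 n k b hk
  by_contra hsp
  obtain ⟨C, hC, hg⟩ := h4 n k b l hk hl0 hsp
  obtain ⟨m, hm⟩ := exists_pow_lt_of_lt_one (show (0 : ℝ) < 1 / (4 * C) by positivity) hl
  have hm' : C * ‖l‖ ^ m < 1 / 4 := by
    rw [lt_div_iff₀ (by positivity)] at hm
    linarith
  set ε : ℝ := 1 / (4 * (m + 1)) with hε
  have hε0 : 0 < ε := by positivity
  have hmε : m * ε ≤ 1 / 4 := by
    rw [hε, mul_one_div, div_le_iff₀ (by positivity)]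
    linarith
  obtain ⟨u, hu, hu0, hue⟩ := h3 n k b (fun _ => 0) ε hε0
  rw [sy_zero] at hue
  simp only [one_mul] at hue
  obtain ⟨hadd, hmul, -, -⟩ := h n
  obtain ⟨hTM, hTl, hlin⟩ := h2 n k b
  have hw0 : (fun x => T k u x + (-1 : ℂ) * u x) = fun x => T k u x - u x := by
    funext x
    ring
  have hj : ∀ j : ℕ, (T k)^[j] u ∈ M n b ∧
      nn (fun y => (T k)^[j] u y - u y) ≤ j * ε * nn u := by
    intro j
    induction j with
    | zero =>
      refine ⟨hu, ?_⟩
      have e1 : (fun y => (T k)^[0] u y - u y) = fun y => (0 : ℂ) * u y := by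
        funext y
        simp
      rw [e1, (hmul 0 u hu.1).2]
      simp
    | succ j ih =>
      obtain ⟨ihM, ih2⟩ := ih
      rw [Function.iterate_succ_apply']
      refine ⟨hTM _ ihM, ?_⟩
      have hw : (fun x => (T k)^[j] u x + (-1 : ℂ) * u x) = fun x => (T k)^[j] u x - u x := by
        funext x
        ring
      have hwM := hlin _ ihM u hu (-1)
      rw [hw] at hwM
      have hTw := hTl ((T k)^[j] u) u (-1)
      rw [hw] at hTw
      have e1 : (fun y => T k ((T k)^[j] u) y - u y) =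
          fun y => T k (fun x => (T k)^[j] u x - u x) y + (T k u y - u y) := by
        funext y
        rw [hTw]
        ring
      have hM0 := hlin _ (hTM u hu) u hu (-1)
      rw [hw0] at hM0
      rw [e1]
      have e2 := (hadd _ _ (h1 n k _ hwM.1).1 hM0.1).2
      have e3 := (h1 n k _ hwM.1).2
      push_cast
      linarith
  obtain ⟨hMm, hnm⟩ := hj m
  have hwm := hlin _ hMm u hu (-1)
  have hw : (fun x => (T k)^[m] u x + (-1 : ℂ) * u x) = fun x => (T k)^[m] u x - u x := by
    funext x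
    ring
  rw [hw] at hwm
  obtain ⟨f1, f2⟩ := hmul (-1) _ hwm.1
  have f3 := (hadd _ _ hMm.1 f1).2
  have e4 : (fun x => (T k)^[m] u x + -1 * ((T k)^[m] u x - u x)) = u := by
    funext x
    ring
  rw [e4, f2] at f3
  have f4 := hg m u hu
  have f5 : C * ‖l‖ ^ m * nn u ≤ 1 / 4 * nn u := mul_le_mul_of_nonneg_right hm'.le hu0.le
  have f6 : m * ε * nn u ≤ 1 / 4 * nn u := mul_le_mul_of_nonneg_right hmε hu0.le
  rw [norm_neg, norm_one, one_mul] at f3
  linarith

end Pool.Agent.Q162.MT
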