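import Mathlib
import Pool.Agent.Q2.PM.Stm

/-! # Propermutable 2-subgroups permute with the `q`-subgroups of the normal closure

Job A4 of project PM of helper2. -/

set_option autoImplicit false

namespace Q162.PM_A4

open Q2.PM
open Q2.TN (IsPNil IsSyl IsChief Nm)
open Subgroup

section

variable {G : Type} [Group G]

/-- `H B = B H` as a subgroup -/
def KK (H B : Subgroup G) (hHB : Pm H B) : Subgroup G where
  carrier := {x | ∃ b ∈ B, ∃ h ∈ H, x = b * h}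
  mul_mem' := by
    rintro _ _ ⟨b, hb, h, hh, rfl⟩ ⟨b', hb', h', hh', rfl⟩
    obtain ⟨b'', hb'', h'', hh'', e⟩ := hHB h hh b' hb'
    refine ⟨b * b'', B.mul_mem hb hb'', h'' * h', H.mul_mem hh'' hh', ?_⟩
    calc b * h * (b' * h') = b * (h * b') * h' := by group
      _ = b * (b'' * h'') * h' := by rw [e]
      _ = b * b'' * (h'' * h') := by group
  one_mem' := ⟨1, B.one_mem, 1, H.one_mem, by simp⟩
  inv_mem' := by
    rintro _ ⟨b, hb, h, hh, rfl⟩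
    obtain ⟨b'', hb'', h'', hh'', e⟩ := hHB h⁻¹ (H.inv_mem hh) b⁻¹ (B.inv_mem hb)
    exact ⟨b'', hb'', h'', hh'', by rw [mul_inv_rev, e]⟩

theorem mem_KK {H B : Subgroup G} {hHB : Pm H B} {x : G} :
    x ∈ KK H B hHB ↔ ∃ b ∈ B, ∃ h ∈ H, x = b * h := Iff.rfl

theorem mem_KK' {H B : Subgroup G} {hHB : Pm H B} {x : G} (hx : x ∈ KK H B hHB) :
    ∃ h ∈ H, ∃ b ∈ B, x = h * b := by
  obtain ⟨b, hb, h, hh, e⟩ := mem_KK.1 ((KK H B hHB).inv_mem hx)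
  exact ⟨h⁻¹, H.inv_mem hh, b⁻¹, B.inv_mem hb, by rw [← mul_inv_rev, ← e, inv_inv]⟩

theorem H_le_KK {H B : Subgroup G} {hHB : Pm H B} : H ≤ KK H B hHB := fun h hh =>
  ⟨1, B.one_mem, h, hh, (one_mul h).symm⟩

theorem B_le_KK {H B : Subgroup G} {hHB : Pm H B} : B ≤ KK H B hHB := fun b hb =>
  ⟨b, hb, 1, H.one_mem, (mul_one b).symm⟩

end

theorem a4 : S_A4 := by
  intro G _ _ H hH hPro q hq hq2 Y hY hYR
  obtain ⟨B, hB1, hB2⟩ := hPro
  have hHB : Pm H B := hB2 B le_rfl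
  have hRK : normalClosure (H : Set G) ≤ KK H B hHB := by
    unfold Subgroup.normalClosure
    rw [closure_le]
    intro x hx
    obtain ⟨h, hh, hc⟩ := Group.mem_conjugatesOfSet_iff.1 hx
    obtain ⟨c, rfl⟩ := isConj_iff.1 hc
    obtain ⟨n, hn, b, hb, e⟩ := hB1 c⁻¹
    have hn' : n⁻¹ * h * n ∈ H := by
      have h1 := (Subgroup.mem_normalizer_iff.1 ((Nm H).inv_mem hn) h).1 hh
      rwa [inv_inv] at h1
    have h2 : c * h * c⁻¹ = b⁻¹ * (n⁻¹ * h * n) * b := by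
      have h3 : c = b⁻¹ * n⁻¹ := by rw [← mul_inv_rev, ← e, inv_inv]
      rw [e, h3]
      group
    rw [h2]
    exact (KK H B hHB).mul_mem ((KK H B hHB).mul_mem ((KK H B hHB).inv_mem (B_le_KK hb))
      (H_le_KK hn')) (B_le_KK hb)
  -- the action of `Y` on the cosets `h B`
  let S : SubMulAction Y (G ⧸ B) :=
    { carrier := MulAction.orbit H ((1 : G) : G ⧸ B)
      smul_mem' := by
        rintro ⟨y, hy⟩ _ ⟨⟨h, hh⟩, rfl⟩
        have h1 : y * h ∈ KK H B hHB := (KK H B hHB).mul_mem (hRK (hYR hy)) (H_le_KK hh)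
        obtain ⟨h', hh', b', hb', e⟩ := mem_KK' h1
        refine ⟨⟨h', hh'⟩, ?_⟩
        show ((h' * 1 : G) : G ⧸ B) = ((y * (h * 1) : G) : G ⧸ B)
        rw [mul_one, mul_one, e, QuotientGroup.eq]
        rw [← mul_assoc, inv_mul_cancel, one_mul]
        exact hb' }
  have : Fact q.Prime := ⟨hq⟩
  have : Fact (Nat.Prime 2) := ⟨Nat.prime_two⟩
  have hcard : ¬ q ∣ Nat.card S := by
    intro hdvd
    have h1 : Nat.card S = (MulAction.orbit H ((1 : G) : G ⧸ B)).ncard :=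
      Nat.card_coe_set_eq (MulAction.orbit H ((1 : G) : G ⧸ B))
    have h2 : Nat.card S ∣ Nat.card H := by
      rw [h1, ← MulAction.index_stabilizer]
      exact Subgroup.index_dvd_card _
    obtain ⟨k, hk⟩ := IsPGroup.iff_card.1 hH
    rw [hk] at h2
    exact hq2 ((Nat.prime_dvd_prime_iff_eq hq Nat.prime_two).1 (hq.dvd_of_dvd_pow (hdvd.trans h2)))
  obtain ⟨⟨s, hs⟩, hfix⟩ := hY.nonempty_fixed_point_of_prime_not_dvd_card S hcard
  obtain ⟨⟨h, hh⟩, rfl⟩ := hs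
  have hYB : ∀ y ∈ Y, h⁻¹ * y * h ∈ B := by
    intro y hy
    have h1 := congrArg Subtype.val (hfix ⟨y, hy⟩)
    have h2 : ((y * (h * 1) : G) : G ⧸ B) = ((h * 1 : G) : G ⧸ B) := h1
    rw [mul_one] at h2
    have h3 := QuotientGroup.eq.1 h2.symm
    rwa [← mul_assoc] at h3
  have hX : Y.map (MulAut.conj h⁻¹).toMonoidHom ≤ B := by
    rintro _ ⟨y, hy, rfl⟩
    show h⁻¹ * y * h⁻¹⁻¹ ∈ B
    rw [inv_inv]
    exact hYB y hy
  have hP := hB2 _ hX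
  intro h1 hh1 y hy
  obtain ⟨x', ⟨y', hy', rfl⟩, h'', hh'', e⟩ := hP (h⁻¹ * h1 * h)
    (H.mul_mem (H.mul_mem (H.inv_mem hh) hh1) hh) (h⁻¹ * y * h⁻¹⁻¹) ⟨y, hy, rfl⟩
  have e' : h⁻¹ * h1 * h * (h⁻¹ * y * h⁻¹⁻¹) = (h⁻¹ * y' * h⁻¹⁻¹) * h'' := e
  refine ⟨y', hy', h * h'' * h⁻¹, H.mul_mem (H.mul_mem hh hh'') (H.inv_mem hh), ?_⟩
  have e2 : h1 * y = h * (h⁻¹ * h1 * h * (h⁻¹ * y * h⁻¹⁻¹)) * h⁻¹ := by group
  rw [e2, e']
  group

end Q162.PM_A4
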