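import Mathlib

set_option autoImplicit false

/-!
# Restricted Bell polynomials: set partitions with blocks of size at most `m`
-/

namespace Q162.RBell

open Finset Polynomial

section families

variable {α : Type*} [DecidableEq α]

/-- The set partitions of `s` with all blocks of size at most `m`, as families of subsets. -/
def fam (m : ℕ) (s : Finset α) : Finset (Finset (Finset α)) :=
  (s.powerset.powerset).filter (fun P => ∅ ∉ P ∧ (∀ b ∈ P, b.card ≤ m) ∧
    (∀ b ∈ P, ∀ c ∈ P, b ≠ c → Disjoint b c) ∧ P.biUnion id = s)

lemma mem_fam {m : ℕ} {s : Finset α} {P : Finset (Finset α)} :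
    P ∈ fam m s ↔ ∅ ∉ P ∧ (∀ b ∈ P, b.card ≤ m) ∧
    (∀ b ∈ P, ∀ c ∈ P, b ≠ c → Disjoint b c) ∧ P.biUnion id = s := by
  unfold fam
  rw [mem_filter]
  constructor
  · exact fun h => h.2
  · intro h
    refine ⟨?_, h⟩
    rw [mem_powerset]
    intro b hb
    rw [mem_powerset, ← h.2.2.2]
    exact subset_biUnion_of_mem id hb

/-- The generating polynomial by the number of blocks. -/
noncomputable def W (m : ℕ) (s : Finset α) : ℤ[X] := ∑ P ∈ fam m s, X ^ P.card

lemma fam_empty (m : ℕ) : fam m (∅ : Finset α) = {∅} := by
  ext P
  rw [mem_fam, mem_singleton]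
  constructor
  · rintro ⟨h1, -, -, h4⟩
    rw [eq_empty_iff_forall_notMem]
    intro b hb
    have : b ⊆ P.biUnion id := subset_biUnion_of_mem id hb
    rw [h4, subset_empty] at this
    rw [this] at hb
    exact h1 hb
  · rintro rfl
    simp

lemma W_insert (m : ℕ) (s : Finset α) (a : α) (ha : a ∉ s) :
    W m (insert a s) = X * ∑ T ∈ s.powerset.filter (fun T => T.card < m), W m (s \ T) := by
  unfold W
  rw [Finset.mul_sum]
  simp_rw [Finset.mul_sum]
  rw [Finset.sum_sigma']
  symm
  -- blocks of a partition of `s \ T` do not contain `a`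
  have hna : ∀ (T : Finset α) (Q : Finset (Finset α)), Q ∈ fam m (s \ T) → ∀ b ∈ Q, a ∉ b := by
    intro T Q hQ b hb hab
    rw [mem_fam] at hQ
    have : a ∈ Q.biUnion id := mem_biUnion.mpr ⟨b, hb, hab⟩
    rw [hQ.2.2.2, mem_sdiff] at this
    exact ha this.1
  refine Finset.sum_bij (fun (x : (_ : Finset α) × Finset (Finset α)) _ => insert (insert a x.1) x.2)
    ?_ ?_ ?_ ?_
  · rintro ⟨T, Q⟩ hx
    rw [mem_sigma] at hx
    simp only [mem_filter, mem_powerset] at hx
    obtain ⟨⟨hT, hTm⟩, hQ⟩ := hx
    have haT : a ∉ T := fun h => ha (hT h)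
    have hna' := hna T Q hQ
    rw [mem_fam] at hQ
    obtain ⟨q1, q2, q3, q4⟩ := hQ
    have hsub : ∀ b ∈ Q, b ⊆ s \ T := by
      intro b hb
      rw [← q4]
      exact subset_biUnion_of_mem id hb
    have hdisj : ∀ b ∈ Q, Disjoint (insert a T) b := by
      intro b hb
      rw [disjoint_left]
      intro x hx hxb
      rcases mem_insert.mp hx with rfl | hx
      · exact hna' b hb hxb
      · exact (mem_sdiff.mp (hsub b hb hxb)).2 hx
    rw [mem_fam]
    refine ⟨?_, ?_, ?_, ?_⟩
    · rw [mem_insert, not_or]
      exact ⟨fun h => (insert_ne_empty a T) h.symm, q1⟩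
    · intro b hb
      rcases mem_insert.mp hb with rfl | hb
      · rw [card_insert_of_notMem haT]
        omega
      · exact q2 b hb
    · intro b hb c hc hbc
      rcases mem_insert.mp hb with rfl | hb
      · rcases mem_insert.mp hc with rfl | hc
        · exact absurd rfl hbc
        · exact hdisj c hc
      · rcases mem_insert.mp hc with rfl | hc
        · exact (hdisj b hb).symm
        · exact q3 b hb c hc hbc
    · rw [biUnion_insert, q4, id, insert_union, union_sdiff_of_subset hT]
  · rintro ⟨T, Q⟩ hx ⟨T', Q'⟩ hx' h
    rw [mem_sigma] at hx hx'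
    simp only [mem_filter, mem_powerset] at hx hx' h
    have haT : a ∉ T := fun h => ha (hx.1.1 h)
    have haT' : a ∉ T' := fun h => ha (hx'.1.1 h)
    have hna1 := hna T Q hx.2
    have hna2 := hna T' Q' hx'.2
    have hTT : insert a T = insert a T' := by
      have : insert a T ∈ insert (insert a T') Q' := by
        rw [← h]
        exact mem_insert_self _ _
      rcases mem_insert.mp this with h1 | h1
      · exact h1
      · exact absurd (mem_insert_self a T) (hna2 _ h1)
    have hT : T = T' := by
      rw [← erase_insert haT, hTT, erase_insert haT']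
    have hn1 : insert a T ∉ Q := fun h1 => hna1 _ h1 (mem_insert_self a T)
    have hn2 : insert a T' ∉ Q' := fun h1 => hna2 _ h1 (mem_insert_self a T')
    have hQ : Q = Q' := by
      rw [← erase_insert hn1, h, hTT, erase_insert hn2]
    subst hT hQ
    rfl
  · intro P hP
    rw [mem_fam] at hP
    obtain ⟨p1, p2, p3, p4⟩ := hP
    have haP : a ∈ P.biUnion id := by
      rw [p4]
      exact mem_insert_self a s
    obtain ⟨b, hb, hab⟩ := mem_biUnion.mp haP
    simp only [id] at hab
    have hbs : b ⊆ insert a s := by
      rw [← p4]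
      exact subset_biUnion_of_mem id hb
    have hTs : b.erase a ⊆ s := by
      intro x hx
      have h1 := mem_erase.mp hx
      rcases mem_insert.mp (hbs h1.2) with h2 | h2
      · exact absurd h2 h1.1
      · exact h2
    refine ⟨⟨b.erase a, P.erase b⟩, ?_, ?_⟩
    · rw [mem_sigma]
      simp only [mem_filter, mem_powerset]
      refine ⟨⟨hTs, ?_⟩, ?_⟩
      · rw [card_erase_of_mem hab]
        have h1 := p2 b hb
        have h2 : 0 < b.card := card_pos.mpr ⟨a, hab⟩
        omega
      · rw [mem_fam]
        refine ⟨fun h => p1 (mem_of_mem_erase h), fun c hc => p2 c (mem_of_mem_erase hc),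
          fun c hc d hd hcd => p3 c (mem_of_mem_erase hc) d (mem_of_mem_erase hd) hcd, ?_⟩
        ext x
        rw [mem_biUnion, mem_sdiff]
        constructor
        · rintro ⟨c, hc, hxc⟩
          simp only [id] at hxc
          have hcP := mem_of_mem_erase hc
          have hcb : c ≠ b := (mem_erase.mp hc).1
          have hd := p3 c hcP b hb hcb
          have hxb : x ∉ b := disjoint_left.mp hd hxc
          have hxi : x ∈ insert a s := by
            rw [← p4]
            exact mem_biUnion.mpr ⟨c, hcP, hxc⟩
          refine ⟨?_, fun h => hxb (mem_of_mem_erase h)⟩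
          rcases mem_insert.mp hxi with h2 | h2
          · rw [h2] at hxb
            exact absurd hab hxb
          · exact h2
        · rintro ⟨hxs, hxb⟩
          have hxa : x ≠ a := fun h => ha (h ▸ hxs)
          have hxb' : x ∉ b := fun h => hxb (mem_erase.mpr ⟨hxa, h⟩)
          have hxi : x ∈ P.biUnion id := by
            rw [p4]
            exact mem_insert_of_mem hxs
          obtain ⟨c, hc, hxc⟩ := mem_biUnion.mp hxi
          simp only [id] at hxc
          exact ⟨c, mem_erase.mpr ⟨fun h => hxb' (h ▸ hxc), hc⟩, hxc⟩
    · simp only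
      rw [insert_erase hab, insert_erase hb]
  · rintro ⟨T, Q⟩ hx
    rw [mem_sigma] at hx
    have hna1 := hna T Q hx.2
    have hn1 : insert a T ∉ Q := fun h1 => hna1 _ h1 (mem_insert_self a T)
    simp only
    rw [card_insert_of_notMem hn1, pow_succ, mul_comm]

end families

/-- The polynomials defined by the recursion on the block of the last element. -/
noncomputable def bp (m : ℕ) : ℕ → ℤ[X]
  | 0 => 1
  | (n + 1) => X * ∑ j : Fin (n + 1), if (j : ℕ) < m then (n.choose j : ℤ[X]) * bp m (n - j) else 0

lemma bp_zero (m : ℕ) : bp m 0 = 1 := by rw [bp]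

lemma bp_succ (m n : ℕ) : bp m (n + 1) =
    X * ∑ j ∈ range m, (n.choose j : ℤ[X]) * bp m (n - j) := by
  rw [bp]
  congr 1
  rw [Fin.sum_univ_eq_sum_range
    (fun j => if j < m then (n.choose j : ℤ[X]) * bp m (n - j) else 0) (n + 1)]
  rcases le_total m (n + 1) with h | h
  · rw [← Finset.sum_subset (s₁ := range m) (s₂ := range (n + 1))]
    · refine Finset.sum_congr rfl fun j hj => ?_
      rw [if_pos (mem_range.mp hj)]
    · exact range_subset_range.mpr h
    · intro j _ hj
      rw [if_neg (fun h => hj (mem_range.mpr h))]
  · symm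
    rw [← Finset.sum_subset (s₁ := range (n + 1)) (s₂ := range m)]
    · refine Finset.sum_congr rfl fun j hj => ?_
      rw [if_pos (by have := mem_range.mp hj; omega)]
    · exact range_subset_range.mpr h
    · intro j _ hj
      rw [Nat.choose_eq_zero_of_lt (by rw [mem_range] at hj; omega)]
      simp

lemma W_eq_bp {α : Type*} [DecidableEq α] (m : ℕ) (n : ℕ) :
    ∀ s : Finset α, s.card = n → W m s = bp m n := by
  induction n using Nat.strong_induction_on with
  | _ n ih =>
    intro s hs
    rcases n with _ | n
    · rw [card_eq_zero] at hs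
      rw [hs, bp_zero]
      unfold W
      rw [fam_empty]
      simp
    · obtain ⟨a, ha⟩ : s.Nonempty := by
        rw [← card_pos]
        omega
      have hs' : insert a (s.erase a) = s := insert_erase ha
      have hc : (s.erase a).card = n := by
        rw [card_erase_of_mem ha]
        omega
      rw [← hs', W_insert m _ a (notMem_erase a s), bp_succ]
      congr 1
      have h1 : ∑ T ∈ (s.erase a).powerset.filter (fun T => T.card < m), W m ((s.erase a) \ T) =
          ∑ T ∈ (s.erase a).powerset, (fun j => if j < m then bp m (n - j) else 0) T.card := by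
        rw [Finset.sum_filter]
        refine Finset.sum_congr rfl fun T hT => ?_
        rw [mem_powerset] at hT
        simp only
        split_ifs with h
        · apply ih (n - T.card) (by omega)
          rw [card_sdiff_of_subset hT, hc]
        · rfl
      have h2 := Finset.sum_powerset_apply_card
        (fun j => if j < m then bp m (n - j) else 0) (x := s.erase a)
      rw [h1, h2, hc]
      rcases le_total m (n + 1) with h | h
      · symm
        rw [← Finset.sum_subset (s₁ := range m) (s₂ := range (n + 1))
          (f := fun j => n.choose j • (if j < m then bp m (n - j) else 0))]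
        · refine Finset.sum_congr rfl fun j hj => ?_
          rw [if_pos (mem_range.mp hj), nsmul_eq_mul]
        · exact range_subset_range.mpr h
        · intro j _ hj
          rw [if_neg (fun h => hj (mem_range.mpr h)), smul_zero]
      · symm
        rw [← Finset.sum_subset (s₁ := range (n + 1)) (s₂ := range m)]
        · refine Finset.sum_congr rfl fun j hj => ?_
          rw [if_pos (by have := mem_range.mp hj; omega), nsmul_eq_mul]
        · exact range_subset_range.mpr h
        · intro j _ hj
          rw [Nat.choose_eq_zero_of_lt (by rw [mem_range] at hj; omega)]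
          simp

lemma choose_swap (n j k : ℕ) :
    n.choose j * (n - j).choose k = n.choose k * (n - k).choose j := by
  rcases le_or_gt (j + k) n with h | h
  · obtain ⟨r, rfl⟩ := Nat.exists_eq_add_of_le h
    have e1 : j + k + r - j = k + r := by omega
    have e2 : j + k + r - k = j + r := by omega
    rw [e1, e2]
    have h1 := Nat.choose_mul_factorial_mul_factorial (show j ≤ j + k + r by omega)
    have h2 := Nat.choose_mul_factorial_mul_factorial (show k ≤ j + k + r by omega)
    have h3 := Nat.choose_mul_factorial_mul_factorial (show k ≤ k + r by omega)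
    have h4 := Nat.choose_mul_factorial_mul_factorial (show j ≤ j + r by omega)
    have e3 : k + r - k = r := by omega
    have e4 : j + r - j = r := by omega
    rw [e1] at h1
    rw [e2] at h2
    rw [e3] at h3
    rw [e4] at h4
    have hpos : 0 < j.factorial * k.factorial * r.factorial := by positivity
    apply Nat.eq_of_mul_eq_mul_right hpos
    calc (j + k + r).choose j * (k + r).choose k * (j.factorial * k.factorial * r.factorial)
        = (j + k + r).choose j * j.factorial * ((k + r).choose k * k.factorial * r.factorial) := by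
          ring
      _ = (j + k + r).factorial := by rw [h3, h1]
      _ = (j + k + r).choose k * k.factorial * ((j + r).choose j * j.factorial * r.factorial) := by
          rw [h4, h2]
      _ = (j + k + r).choose k * (j + r).choose j *
          (j.factorial * k.factorial * r.factorial) := by ring
  · rcases lt_or_ge n j with hj | hj
    · rw [Nat.choose_eq_zero_of_lt hj, zero_mul]
      rcases lt_or_ge n k with hk | hk
      · rw [Nat.choose_eq_zero_of_lt hk, zero_mul]
      · rw [Nat.choose_eq_zero_of_lt (show n - k < j by omega), mul_zero]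
    · rw [Nat.choose_eq_zero_of_lt (show n - j < k by omega), mul_zero]
      rcases lt_or_ge n k with hk | hk
      · rw [Nat.choose_eq_zero_of_lt hk, zero_mul]
      · rw [Nat.choose_eq_zero_of_lt (show n - k < j by omega), mul_zero]

/-- The derivative of the polynomials. -/
lemma bp_derivative (m n : ℕ) : derivative (bp m n) =
    ∑ i ∈ range m, (n.choose (i + 1) : ℤ[X]) * bp m (n - (i + 1)) := by
  induction n using Nat.strong_induction_on with
  | _ n ih =>
    rcases n with _ | n
    · rw [bp_zero, derivative_one]
      symm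
      refine Finset.sum_eq_zero fun i _ => ?_
      rw [Nat.choose_zero_succ]
      simp
    · rw [bp_succ, derivative_mul, derivative_X, one_mul, derivative_sum]
      have h1 : ∑ j ∈ range m, derivative ((n.choose j : ℤ[X]) * bp m (n - j)) =
          ∑ j ∈ range m, ∑ i ∈ range m, (n.choose (i + 1) : ℤ[X]) *
            (((n - (i + 1)).choose j : ℤ[X]) * bp m (n - (i + 1) - j)) := by
        refine Finset.sum_congr rfl fun j _ => ?_
        rw [derivative_mul, derivative_natCast, zero_mul, zero_add, ih (n - j) (by omega),
          Finset.mul_sum]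
        refine Finset.sum_congr rfl fun i _ => ?_
        have h2 : ((n.choose j : ℕ) : ℤ[X]) * (((n - j).choose (i + 1) : ℕ) : ℤ[X]) =
            ((n.choose (i + 1) : ℕ) : ℤ[X]) * (((n - (i + 1)).choose j : ℕ) : ℤ[X]) := by
          exact_mod_cast congrArg (Nat.cast : ℕ → ℤ[X]) (choose_swap n j (i + 1))
        have h3 : n - j - (i + 1) = n - (i + 1) - j := by omega
        rw [← mul_assoc, h2, h3, mul_assoc]
      rw [h1, Finset.sum_comm, Finset.mul_sum, ← Finset.sum_add_distrib]
      refine Finset.sum_congr rfl fun i _ => ?_
      have h4 : X * ∑ j ∈ range m, (n.choose (i + 1) : ℤ[X]) *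
          (((n - (i + 1)).choose j : ℤ[X]) * bp m (n - (i + 1) - j)) =
          (n.choose (i + 1) : ℤ[X]) * bp m (n + 1 - (i + 1)) := by
        rcases lt_or_ge n (i + 1) with h | h
        · rw [Nat.choose_eq_zero_of_lt h]
          simp
        · have h5 : n + 1 - (i + 1) = (n - (i + 1)) + 1 := by omega
          rw [h5, bp_succ, ← Finset.mul_sum]
          ring
      rw [h4, Nat.choose_succ_succ n i]
      have h6 : n + 1 - (i + 1) = n - i := by omega
      rw [h6]
      push_cast
      ring

/-! ### Values at the integer point `-1860` for `m = 5` -/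

/-- A quickly computable form of the binomial coefficient. -/
def cc (n j : ℕ) : ℤ := ((n.descFactorial j / j.factorial : ℕ) : ℤ)

lemma cc_eq (n j : ℕ) : cc n j = (n.choose j : ℤ) := by
  unfold cc
  rw [Nat.choose_eq_descFactorial_div_factorial]

/-- The list `[v_k, v_{k-1}, …, v_0]` of the values at `x = -1860`. -/
def st : ℕ → List ℤ
  | 0 => [1]
  | (k + 1) => ((-1860) * (cc k 0 * (st k).getD 0 0 + cc k 1 * (st k).getD 1 0 +
      cc k 2 * (st k).getD 2 0 + cc k 3 * (st k).getD 3 0 + cc k 4 * (st k).getD 4 0)) :: st k

lemma st_spec (k : ℕ) : ∀ i, (st k).getD i 0 = if i ≤ k then (bp 5 (k - i)).eval (-1860) else 0 := by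
  induction k with
  | zero =>
    intro i
    rcases i with _ | i
    · rw [if_pos le_rfl, Nat.sub_self, bp_zero]
      simp [st]
    · rw [if_neg (by omega)]
      simp [st]
  | succ k ih =>
    intro i
    rcases i with _ | i
    · rw [if_pos (Nat.zero_le _), Nat.sub_zero, bp_succ, eval_mul, eval_X, eval_finsetSum]
      unfold st
      rw [List.getD_cons_zero, ih, ih, ih, ih, ih]
      simp only [Finset.sum_range_succ, Finset.sum_range_zero, zero_add, eval_mul, eval_natCast,
        cc_eq]
      have h : ∀ j : ℕ, ((k.choose j : ℕ) : ℤ) *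
          (if j ≤ k then (bp 5 (k - j)).eval (-1860) else 0) =
          ((k.choose j : ℕ) : ℤ) * (bp 5 (k - j)).eval (-1860) := by
        intro j
        split_ifs with hj
        · rfl
        · rw [Nat.choose_eq_zero_of_lt (by omega)]
          simp
      simp only [h]
    · have h1 : (st (k + 1)).getD (i + 1) 0 = (st k).getD i 0 := by
        conv_lhs => unfold st
        rw [List.getD_cons_succ]
      rw [h1, ih, Nat.add_sub_add_right]
      by_cases h : i ≤ k
      · rw [if_pos h, if_pos (by omega)]
      · rw [if_neg h, if_neg (by omega)]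

/-- The value of the derivative. -/
def inner (n : ℕ) (l : List ℤ) : ℤ :=
  cc n 1 * l.getD 0 0 + cc n 2 * l.getD 1 0 + cc n 3 * l.getD 2 0 + cc n 4 * l.getD 3 0 +
    cc n 5 * l.getD 4 0

lemma inner_eq (n : ℕ) (hn : 4 ≤ n) :
    (derivative (bp 5 (n + 1))).eval (-1860) = inner (n + 1) (st n) := by
  rw [bp_derivative, eval_finsetSum]
  rw [Finset.sum_range_succ, Finset.sum_range_succ, Finset.sum_range_succ, Finset.sum_range_succ,
    Finset.sum_range_succ, Finset.sum_range_zero, zero_add]
  simp only [eval_mul, eval_natCast]
  unfold inner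
  rw [st_spec, st_spec, st_spec, st_spec, st_spec]
  simp only [cc_eq]
  rw [if_pos (by omega), if_pos (by omega), if_pos (by omega), if_pos (by omega),
    if_pos (by omega)]
  have e0 : n + 1 - (0 + 1) = n - 0 := by omega
  have e1 : n + 1 - (1 + 1) = n - 1 := by omega
  have e2 : n + 1 - (2 + 1) = n - 2 := by omega
  have e3 : n + 1 - (3 + 1) = n - 3 := by omega
  have e4 : n + 1 - (4 + 1) = n - 4 := by omega
  rw [e0, e1, e2, e3, e4, Nat.sub_zero]

/-- Evaluate a natural number before using it. -/
def forceN {β : Type} (n : ℕ) (f : ℕ → β) : β :=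
  match n with
  | 0 => f 0
  | m + 1 => f (m + 1)

lemma forceN_eq {β : Type} (n : ℕ) (f : ℕ → β) : forceN n f = f n := by
  unfold forceN
  cases n <;> rfl

/-- Evaluate an integer before using it. -/
def forceZ {β : Type} (z : ℤ) (f : ℤ → β) : β :=
  match z with
  | Int.ofNat n => forceN n (fun m => f (Int.ofNat m))
  | Int.negSucc n => forceN n (fun m => f (Int.negSucc m))

lemma forceZ_eq {β : Type} (z : ℤ) (f : ℤ → β) : forceZ z f = f z := by
  unfold forceZ
  cases z <;> simp only [forceN_eq]

/-- The next value. -/
def nxt (k : ℕ) (l : List ℤ) : ℤ :=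
  (-1860) * (cc k 0 * l.getD 0 0 + cc k 1 * l.getD 1 0 +
      cc k 2 * l.getD 2 0 + cc k 3 * l.getD 3 0 + cc k 4 * l.getD 4 0)

/-- The final test. -/
def fin (l : List ℤ) : Bool :=
  decide ((inner 720 (l.drop 1)) ^ 2 - l.getD 0 0 * (cc 720 1 * inner 719 (l.drop 2) +
    cc 720 2 * inner 718 (l.drop 3) + cc 720 3 * inner 717 (l.drop 4) +
    cc 720 4 * inner 716 (l.drop 5) + cc 720 5 * inner 715 (l.drop 6)) < 0)

/-- The loop. -/
def loop : ℕ → ℕ → List ℤ → Bool
  | 0, _, l => fin l
  | (t + 1), k, l => forceZ (nxt k l) (fun v => forceN (k + 1) (fun k' => loop t k' (v :: l)))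

lemma loop_eq (t : ℕ) : ∀ k, loop t k (st k) = fin (st (k + t)) := by
  induction t with
  | zero => intro k; rfl
  | succ t ih =>
    intro k
    unfold loop
    rw [forceZ_eq, forceN_eq]
    have h : nxt k (st k) :: st k = st (k + 1) := rfl
    rw [h, ih]
    congr 2
    omega

theorem loop_true : loop 720 0 [1] = true := by
  decide +kernel

/-- The numerical fact. -/
theorem num : (inner 720 (st 719)) ^ 2 - (st 720).getD 0 0 * (cc 720 1 * inner 719 (st 718) +
    cc 720 2 * inner 718 (st 717) + cc 720 3 * inner 717 (st 716) + cc 720 4 * inner 716 (st 715) +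
    cc 720 5 * inner 715 (st 714)) < 0 := by
  have h := loop_true
  have h0 : loop 720 0 [1] = fin (st (0 + 720)) := loop_eq 720 0
  rw [h0, zero_add] at h
  unfold fin at h
  have hd : ∀ k, (st (k + 1)).drop 1 = st k := by
    intro k
    conv_lhs => unfold st
    rfl
  have hdd : ∀ j k, (st (k + j)).drop j = st k := by
    intro j
    induction j with
    | zero => intro k; rfl
    | succ j ih =>
      intro k
      rw [← add_assoc, add_comm j 1, ← List.drop_drop, hd, ih]
  rw [hdd 1 719, hdd 2 718, hdd 3 717, hdd 4 716, hdd 5 715, hdd 6 714] at h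
  exact of_decide_eq_true h

/-- The violation of the Laguerre inequality. -/
theorem violation : ((bp 5 720).derivative.eval (-1860)) ^ 2 -
    (bp 5 720).eval (-1860) * (bp 5 720).derivative.derivative.eval (-1860) < 0 := by
  have h1 : (bp 5 720).derivative.eval (-1860) = inner 720 (st 719) := inner_eq 719 (by norm_num)
  have h2 : (bp 5 720).eval (-1860) = (st 720).getD 0 0 := by
    rw [st_spec, if_pos (Nat.zero_le _)]
  have h3 : (bp 5 720).derivative.derivative.eval (-1860) = cc 720 1 * inner 719 (st 718) +
    cc 720 2 * inner 718 (st 717) + cc 720 3 * inner 717 (st 716) + cc 720 4 * inner 716 (st 715) +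
    cc 720 5 * inner 715 (st 714) := by
    rw [bp_derivative, derivative_sum, eval_finsetSum]
    have h4 : ∀ j : ℕ, (derivative ((Nat.choose 720 (j + 1) : ℤ[X]) *
        bp 5 (720 - (j + 1)))).eval (-1860) =
        cc 720 (j + 1) * (derivative (bp 5 (719 - j))).eval (-1860) := by
      intro j
      rw [derivative_mul, derivative_natCast, zero_mul, zero_add, eval_mul, eval_natCast, cc_eq]
      rw [show 720 - (j + 1) = 719 - j by omega]
    simp only [Finset.sum_range_succ, Finset.sum_range_zero, zero_add, h4]
    rw [← inner_eq 718 (by norm_num), ← inner_eq 717 (by norm_num), ← inner_eq 716 (by norm_num),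
      ← inner_eq 715 (by norm_num), ← inner_eq 714 (by norm_num)]
  rw [h1, h2, h3]
  exact num

end Q162.RBell
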