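import Mathlib

set_option autoImplicit false

/-!
# The Laguerre inequality and non-real roots
-/

namespace Q162.RealRoot

open Polynomial

/-- The Laguerre expression `p'(x)^2 - p(x) p''(x)`. -/
noncomputable def lagExpr (p : ℝ[X]) (x : ℝ) : ℝ :=
  (p.derivative.eval x) ^ 2 - p.eval x * p.derivative.derivative.eval x

theorem lagExpr_mul (p q : ℝ[X]) (x : ℝ) :
    lagExpr (p * q) x = (q.eval x) ^ 2 * lagExpr p x + (p.eval x) ^ 2 * lagExpr q x := by
  unfold lagExpr
  simp only [derivative_mul, derivative_add, eval_mul, eval_add]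
  ring

/-- The Laguerre inequality for real-rooted polynomials. -/
theorem laguerre {p : ℝ[X]} (hp : p.Splits) (x : ℝ) : 0 ≤ lagExpr p x := by
  unfold Polynomial.Splits at hp
  induction hp using Submonoid.closure_induction with
  | mem f hf =>
    rcases hf with ⟨a, rfl⟩ | ⟨a, rfl⟩
    · simp [lagExpr]
    · simp [lagExpr]
  | one => simp [lagExpr]
  | mul f g _ _ hf hg =>
    rw [lagExpr_mul]
    positivity

/-- If all complex roots of a real polynomial are real then it splits over the reals. -/
theorem splits_of_real_roots {p : ℝ[X]} (h : ∀ z : ℂ, aeval z p = 0 → z.im = 0) : p.Splits := by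
  refine Splits.of_splits_map_of_injective (i := algebraMap ℝ ℂ) (algebraMap ℝ ℂ).injective
    (IsAlgClosed.splits _) ?_
  intro z hz
  by_cases hp : p = 0
  · rw [hp, Polynomial.map_zero, roots_zero] at hz
    exact absurd hz (Multiset.notMem_zero z)
  · have hz' : aeval z p = 0 := by
      rw [mem_roots_map hp] at hz
      rw [aeval_def]
      exact hz
    have him := h z hz'
    exact ⟨z.re, Complex.ext rfl (by simpa using him.symm)⟩

/-- A violation of the Laguerre inequality gives a non-real root. -/
theorem exists_nonreal {p : ℝ[X]} (x : ℝ) (h : lagExpr p x < 0) :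
    ∃ z : ℂ, z.im ≠ 0 ∧ aeval z p = 0 := by
  by_contra hcon
  push Not at hcon
  have hs : p.Splits := splits_of_real_roots fun z hz => by
    by_contra hne
    exact hcon z hne hz
  exact absurd (laguerre hs x) (not_le.mpr h)

/-- The version for integer polynomials and integer points. -/
theorem exists_nonreal_int {p : ℤ[X]} (x : ℤ)
    (h : (p.derivative.eval x) ^ 2 - p.eval x * p.derivative.derivative.eval x < 0) :
    ∃ z : ℂ, z.im ≠ 0 ∧ aeval z p = 0 := by
  have hev : ∀ q : ℤ[X], (q.map (Int.castRingHom ℝ)).eval (x : ℝ) = ((q.eval x : ℤ) : ℝ) := by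
    intro q
    exact eval_intCast_map (Int.castRingHom ℝ) q x
  have h' : lagExpr (p.map (Int.castRingHom ℝ)) (x : ℝ) < 0 := by
    unfold lagExpr
    rw [derivative_map, derivative_map, hev, hev, hev]
    exact_mod_cast h
  obtain ⟨z, hz, hz0⟩ := exists_nonreal _ h'
  refine ⟨z, hz, ?_⟩
  rw [aeval_def, eval₂_map] at hz0
  rw [aeval_def]
  have hr : algebraMap ℤ ℂ = (algebraMap ℝ ℂ).comp (Int.castRingHom ℝ) := RingHom.ext_int _ _
  rw [hr]
  exact hz0

end Q162.RealRoot
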